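import Pool.Agent.K1H28.ZG.Mix

/-!
# The case of a finite measure algebra
-/

set_option autoImplicit false
set_option linter.unusedSectionVars false

open MeasureTheory Filter Topology Finset
open scoped ENNReal

namespace Pool.Agent.K1H28.ZG

open Pool.Agent.K1H28.ZO

/-- averages of an eventually periodic sequence converge -/
lemma cv_evp {d : ℕ → ℝ} {k j : ℕ} (hk : 0 < k) (h : ∀ n, j ≤ n → d (n + k) = d n) :
    Cv (fun N : ℕ => (N : ℝ)⁻¹ * ∑ n ∈ Icc 1 N, d n) := by
  set S : ℕ → ℝ := fun N => ∑ n ∈ Icc 1 N, d n with hS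
  have hS1 : ∀ N, S (N + 1) = S N + d (N + 1) := fun N => by
    simp only [hS]
    rw [Finset.sum_Icc_succ_top (by omega)]
  set M : ℝ := S (j + k) - S j with hM
  have hW : ∀ N, j ≤ N → S (N + k) - S N = M := by
    intro N hN
    induction N, hN using Nat.le_induction with
    | base => rfl
    | succ N hN ih =>
      have e : N + 1 + k = N + k + 1 := by omega
      rw [e, hS1, hS1, ← ih]
      have := h (N + 1) (by omega)
      rw [e] at this
      rw [this]
      ring
  have hk0 : (0 : ℝ) < k := by exact_mod_cast hk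
  set G : ℕ → ℝ := fun N => S N - N * (M / k) with hG
  have hGp : ∀ N, j ≤ N → G (N + k) = G N := by
    intro N hN
    have h1 := hW N hN
    simp only [hG]
    push_cast
    have : S (N + k) = M + S N := by linarith
    rw [this]
    field_simp
    ring
  set C : ℝ := ∑ N ∈ range (j + k), |G N| with hC
  have hGb : ∀ N, |G N| ≤ C := by
    intro N
    induction N using Nat.strong_induction_on with
    | _ N ih =>
      rcases Nat.lt_or_ge N (j + k) with h1 | h1
      · exact Finset.single_le_sum (f := fun N => |G N|) (fun i _ => abs_nonneg _)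
          (Finset.mem_range.2 h1)
      · have h2 := hGp (N - k) (by omega)
        have e : N - k + k = N := by omega
        rw [e] at h2
        rw [h2]
        exact ih _ (by omega)
  refine ⟨M / k, ?_⟩
  have h1 : Tendsto (fun N : ℕ => M / k + (N : ℝ)⁻¹ * G N) atTop (𝓝 (M / k + 0)) := by
    refine tendsto_const_nhds.add ?_
    have h2 : Tendsto (fun N : ℕ => (N : ℝ)⁻¹ * C) atTop (𝓝 0) := by
      have := (tendsto_inv_atTop_nhds_zero_nat (𝕜 := ℝ)).mul_const C
      simpa using this
    refine squeeze_zero_norm (fun N => ?_) h2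
    rw [norm_mul, norm_inv, Real.norm_natCast, Real.norm_eq_abs]
    exact mul_le_mul_of_nonneg_left (hGb N) (by positivity)
  rw [add_zero] at h1
  refine h1.congr' ?_
  filter_upwards [eventually_ge_atTop 1] with N hN
  have hN0 : (0 : ℝ) < N := by exact_mod_cast hN
  simp only [hG]
  field_simp
  ring

variable {X : Type*} [MeasurableSpace X] {μ : Measure X} [IsProbabilityMeasure μ]

/-- an atom -/
lemma exists_atom (hs : ¬ Small μ) : ∃ S : Set X, MeasurableSet S ∧ μ S ≠ 0 ∧
    ∀ A : Set X, MeasurableSet A → μ (S ∩ A) = 0 ∨ μ (S \ A) = 0 := by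
  unfold Small at hs
  push Not at hs
  obtain ⟨ε, hε, hs⟩ := hs
  set Q : ℕ → Prop := fun m => ∃ S : Set X, MeasurableSet S ∧ μ S ≠ 0 ∧ ⌊μ.real S / ε⌋₊ = m with hQ
  have hex : ∃ m, Q m := ⟨_, Set.univ, MeasurableSet.univ, by simp, rfl⟩
  classical
  obtain ⟨S, hS, hS0, hSm⟩ := Nat.find_spec hex
  refine ⟨S, hS, hS0, fun A hA => ?_⟩
  by_contra hcon
  push Not at hcon
  have h1 := hs _ (hS.diff hA) hcon.2
  have h2 : μ.real (S ∩ A) + μ.real (S \ A) = μ.real S := measureReal_inter_add_sdiff hA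
  have h3 : Nat.find hex ≤ ⌊μ.real (S ∩ A) / ε⌋₊ :=
    Nat.find_min' hex ⟨S ∩ A, hS.inter hA, hcon.1, rfl⟩
  have h4 : μ.real (S ∩ A) / ε ≤ μ.real S / ε - 1 := by
    rw [← h2, add_div]
    have : 1 ≤ μ.real (S \ A) / ε := by
      rw [le_div_iff₀ hε, one_mul]
      exact h1.le
    linarith
  have h5 : ⌊μ.real (S ∩ A) / ε⌋₊ ≤ ⌊μ.real S / ε - 1⌋₊ := Nat.floor_mono h4
  rw [Nat.floor_sub_one, hSm] at h5
  have h6 : 1 ≤ Nat.find hex := by
    rw [← hSm]
    apply Nat.le_floor
    have : 0 ≤ μ.real (S ∩ A) / ε := by positivity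
    push_cast
    linarith
  omega

/-- a name on the atom -/
lemma name_atom {T : X → X} (hT : MeasurePreserving T μ μ) {S : Set X}
    (hat : ∀ A : Set X, MeasurableSet A → μ (S ∩ A) = 0 ∨ μ (S \ A) = 0) {A : Set X}
    (hA : MeasurableSet A) : ∃ c : ℕ → ℝ, ∀ᵐ x ∂μ, x ∈ S → ∀ n, ind A (T^[n] x) = c n := by
  have h1 : ∀ n : ℕ, ∃ c : ℝ, ∀ᵐ x ∂μ, x ∈ S → ind A (T^[n] x) = c := by
    intro n
    rcases hat (T^[n] ⁻¹' A) ((hT.measurable.iterate n) hA) with h | h
    · refine ⟨0, ?_⟩
      rw [ae_iff]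
      refine measure_mono_null ?_ h
      intro x hx
      simp only [Set.mem_ofPred_eq] at hx
      push Not at hx
      refine ⟨hx.1, ?_⟩
      by_contra hc
      apply hx.2
      unfold ind
      exact Set.indicator_of_notMem (s := A) hc _
    · refine ⟨1, ?_⟩
      rw [ae_iff]
      refine measure_mono_null ?_ h
      intro x hx
      simp only [Set.mem_ofPred_eq] at hx
      push Not at hx
      refine ⟨hx.1, ?_⟩
      intro hc
      apply hx.2
      unfold ind
      exact Set.indicator_of_mem (s := A) hc _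
  choose c hc using h1
  refine ⟨c, ?_⟩
  filter_upwards [ae_all_iff.2 hc] with x hx hxS n
  exact hx n hxS

/-- convergence for finite measure algebras -/
theorem atomic {T : X → X} (hT : Ergodic T μ) (hs : ¬ Small μ) (A B C : Set X) (hA : MeasurableSet A)
    (hB : MeasurableSet B) (hC : MeasurableSet C) :
    ∀ᵐ x ∂μ, Cv (av id T (ind A) (ind B) (ind C) x) := by
  have hTp := hT.toMeasurePreserving
  obtain ⟨S, hS, hS0, hat⟩ := exists_atom hs
  obtain ⟨a, ha⟩ := name_atom hTp hat hA
  obtain ⟨b, hb⟩ := name_atom hTp hat hB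
  obtain ⟨c, hc⟩ := name_atom hTp hat hC
  obtain ⟨k, hk, hkS⟩ := hTp.conservative.exists_gt_measure_inter_ne_zero hS.nullMeasurableSet hS0 0
  have hret : ∀ᵐ x ∂μ, x ∈ S → T^[k] x ∈ S := by
    rcases hat (T^[k] ⁻¹' S) ((hTp.measurable.iterate k) hS) with h | h
    · exact absurd h hkS
    · rw [ae_iff]
      refine measure_mono_null ?_ h
      intro x hx
      simp only [Set.mem_ofPred_eq] at hx
      push Not at hx
      exact hx
  -- periodicity of the names
  have hgood : ∀ᵐ x ∂μ, (∀ m, T^[m] x ∈ S → ∀ n, ind A (T^[n] (T^[m] x)) = a n) ∧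
      (∀ m, T^[m] x ∈ S → ∀ n, ind B (T^[n] (T^[m] x)) = b n) ∧
      (∀ m, T^[m] x ∈ S → ∀ n, ind C (T^[n] (T^[m] x)) = c n) ∧
      (∀ m, T^[m] x ∈ S → T^[k] (T^[m] x) ∈ S) := by
    filter_upwards [ae_orbit hTp ha, ae_orbit hTp hb, ae_orbit hTp hc, ae_orbit hTp hret]
      with x h1 h2 h3 h4
    exact ⟨h1, h2, h3, h4⟩
  filter_upwards [hgood, union_conull hT hS hS0] with x hx hxS
  obtain ⟨hx1, hx2, hx3, hx4⟩ := hx
  obtain ⟨j, hj⟩ := Set.mem_iUnion.1 hxS
  have hj' : T^[j] x ∈ S := hj
  have hjk : T^[k + j] x ∈ S := by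
    rw [Function.iterate_add_apply]
    exact hx4 j hj'
  -- the orbit is periodic from the time `j` on
  have per : ∀ (D : Set X) (e : ℕ → ℝ), (∀ m, T^[m] x ∈ S → ∀ n, ind D (T^[n] (T^[m] x)) = e n) →
      ∀ q n, j ≤ n → ind D (T^[n + q * k] x) = ind D (T^[n] x) := by
    intro D e he q
    have h1 : ∀ n, j ≤ n → ind D (T^[n + k] x) = ind D (T^[n] x) := by
      intro n hn
      have e1 := he j hj' (n - j)
      have e2 := he (k + j) hjk (n - j)
      rw [← Function.iterate_add_apply] at e1 e2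
      have e3 : n - j + j = n := by omega
      have e4 : n - j + (k + j) = n + k := by omega
      rw [e3] at e1
      rw [e4] at e2
      rw [e1, e2]
    induction q with
    | zero => intro n _; simp
    | succ q ih =>
      intro n hn
      have e : n + (q + 1) * k = n + q * k + k := by ring
      rw [e, h1 _ (by omega), ih n hn]
  unfold av
  refine cv_evp (k := k) (j := j) hk fun n hn => ?_
  have e1 := per A a hx1 1 n hn
  have e2 := per B b hx2 2 (2 * n) (by omega)
  have e3 := per C c hx3 3 (3 * n) (by omega)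
  rw [one_mul] at e1
  have f2 : 2 * (n + k) = 2 * n + 2 * k := by ring
  have f3 : 3 * (n + k) = 3 * n + 3 * k := by ring
  rw [f2, f3, e1, e2, e3]

end Pool.Agent.K1H28.ZG
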