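import Pool.Agent.K1H28.ZG.Space
import Pool.Agent.K1H28.ZG.Atom

/-!
# Generic divergence
-/

set_option autoImplicit false
set_option linter.unusedSectionVars false

open MeasureTheory Filter Topology Finset
open scoped ENNReal

namespace Pool.Agent.K1H28.ZG

open Pool.Agent.K1H28.ZO

variable {X : Type*} [MeasurableSpace X] {μ : Measure X} [IsProbabilityMeasure μ]

lemma two_mem {K : Set ℝ} {a b : ℝ} (ha : a ∈ K) (hb : b ∈ K) (A : Set X) (x : X) : two a b A x ∈ K := by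
  unfold two ind
  by_cases h : x ∈ A
  · rw [Set.indicator_of_mem h]
    simpa using hb
  · rw [Set.indicator_of_notMem h]
    simpa using ha

lemma two_meas {a b : ℝ} {A : Set X} (hA : MeasurableSet A) : Measurable (two a b A) :=
  ((measurable_const.indicator hA).const_mul _).const_add _

/-- the pasted function as an element of the function space -/
lemma exists_cut {K : Set ℝ} {B : ℝ} (hB0 : 0 < B) (hB : ∀ t ∈ K, |t| ≤ B) (F : KF μ K) {u : X → ℝ}
    (hu : Measurable u) (huK : ∀ x, u x ∈ K) {E : Set X} (hE : MeasurableSet E) {r : ℝ} (hr : 0 < r)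
    (hEr : μ.real E ≤ r / (4 * B)) : ∃ F' : KF μ K, dist F' F < r ∧
      ((F' : Lp ℝ 1 μ) : X → ℝ) =ᵐ[μ] cut E (F : Lp ℝ 1 μ) u := by
  have hFK : ∀ᵐ x ∂μ, (F : Lp ℝ 1 μ) x ∈ K := F.2
  have hcK : ∀ᵐ x ∂μ, cut E (F : Lp ℝ 1 μ) u x ∈ K := by
    filter_upwards [hFK] with x hx
    unfold cut
    by_cases h : x ∈ E
    · rw [Set.indicator_of_mem h]
      simpa using huK x
    · rw [Set.indicator_of_notMem h]
      simpa using hx
  have hcm := cut_meas hE (l1_meas (F : Lp ℝ 1 μ)) hu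
  have hmem : MemLp (cut E (F : Lp ℝ 1 μ) u) 1 μ := MemLp.of_bound hcm.aestronglyMeasurable B (by
    filter_upwards [hcK] with x hx
    exact hB _ hx)
  have hae := hmem.coeFn_toLp
  refine ⟨⟨hmem.toLp _, ?_⟩, ?_, hae⟩
  · show ∀ᵐ x ∂μ, _
    filter_upwards [hae, hcK] with x h1 h2
    rw [h1]
    exact h2
  · show dist (hmem.toLp _) (F : Lp ℝ 1 μ) < r
    rw [l1_dist]
    have h1 : ∫ x, |(hmem.toLp (cut E (F : Lp ℝ 1 μ) u)) x - (F : Lp ℝ 1 μ) x| ∂μ ≤
        ∫ x, E.indicator (fun _ => 2 * B) x ∂μ := by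
      refine integral_mono_ae (l1_int _ _) ((integrable_const _).indicator hE) ?_
      filter_upwards [hae, hFK] with x h1 h2
      rw [h1]
      unfold cut
      by_cases h : x ∈ E
      · rw [Set.indicator_of_mem h, Set.indicator_of_mem h]
        have h3 := abs_sub (u x) ((F : Lp ℝ 1 μ) x)
        have h4 := hB _ (huK x)
        have h5 := hB _ h2
        simp only [Pi.one_apply, one_mul, add_sub_cancel_left]
        linarith
      · rw [Set.indicator_of_notMem h, Set.indicator_of_notMem h]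
        simp
    refine h1.trans_lt ?_
    rw [integral_indicator_const _ hE, smul_eq_mul]
    rw [le_div_iff₀ (by positivity)] at hEr
    linarith

/-- **Generic divergence.** -/
theorem generic {T : X → X} (hT : Ergodic T μ)
    (hbad : ¬ ∀ A B C : Set X, MeasurableSet A → MeasurableSet B → MeasurableSet C →
      ∀ᵐ x ∂μ, Cv (av id T (ind A) (ind B) (ind C) x))
    {K₁ K₂ K₃ : Set ℝ} (hK₁ : IsCompact K₁) (hK₂ : IsCompact K₂) (hK₃ : IsCompact K₃)
    (n₁ : K₁.Nontrivial) (n₂ : K₂.Nontrivial) (n₃ : K₃.Nontrivial) :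
    Dense {e : KF μ K₁ × KF μ K₂ × KF μ K₃ | ∀ᵐ x ∂μ, ¬ Cv (Ph T K₁ K₂ K₃ e x)} := by
  have hTp := hT.toMeasurePreserving
  have hTm := hTp.measurable
  have hs : Small μ := by
    by_contra hs
    exact hbad fun A B C hA hB hC => atomic hT hs A B C hA hB hC
  obtain ⟨a, ha, b, hb, hab⟩ := n₁
  obtain ⟨a', ha', b', hb', hab'⟩ := n₂
  obtain ⟨a'', ha'', b'', hb'', hab''⟩ := n₃
  have hbad2 : ∃ A A' A'' : Set X, MeasurableSet A ∧ MeasurableSet A' ∧ MeasurableSet A'' ∧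
      ¬ ∀ᵐ x ∂μ, Cv (av id T (two a b A) (two a' b' A') (two a'' b'' A'') x) := by
    by_contra hcon
    push Not at hcon
    exact hbad fun A B C hA hB hC => trip_of_two hab hab' hab'' (fun A B C hA hB hC => hcon A B C hA hB hC)
      A B C hA hB hC
  obtain ⟨A, A', A'', hA, hA', hA'', hdiv⟩ := hbad2
  set D : Set X := {x | ¬ Cv (av id T (two a b A) (two a' b' A') (two a'' b'' A'') x)} with hD
  have hDm : MeasurableSet D := (cv_measurableSet fun N =>
    av_meas hTm (two_meas hA) (two_meas hA') (two_meas hA'') N).compl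
  have hD0 : μ D ≠ 0 := fun h => hdiv (by rw [ae_iff]; exact h)
  -- a common bound
  obtain ⟨B, hB0, hB₁, hB₂, hB₃⟩ : ∃ B : ℝ, 0 < B ∧ (∀ t ∈ K₁, |t| ≤ B) ∧ (∀ t ∈ K₂, |t| ≤ B) ∧
      (∀ t ∈ K₃, |t| ≤ B) := by
    obtain ⟨B₁, h1⟩ := hK₁.isBounded.exists_norm_le
    obtain ⟨B₂, h2⟩ := hK₂.isBounded.exists_norm_le
    obtain ⟨B₃, h3⟩ := hK₃.isBounded.exists_norm_le
    refine ⟨max 1 (max B₁ (max B₂ B₃)), lt_of_lt_of_le one_pos (le_max_left _ _), fun t ht => ?_,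
      fun t ht => ?_, fun t ht => ?_⟩
    · exact (h1 t ht).trans ((le_max_left _ _).trans (le_max_right _ _))
    · exact (h2 t ht).trans ((le_max_left _ _).trans ((le_max_right _ _).trans (le_max_right _ _)))
    · exact (h3 t ht).trans ((le_max_right _ _).trans ((le_max_right _ _).trans (le_max_right _ _)))
  have _c1 : CompleteSpace (KF μ K₁) := (KF_closed (μ := μ) hK₁.isClosed).completeSpace_coe
  have _c2 : CompleteSpace (KF μ K₂) := (KF_closed (μ := μ) hK₂.isClosed).completeSpace_coe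
  have _c3 : CompleteSpace (KF μ K₃) := (KF_closed (μ := μ) hK₃.isClosed).completeSpace_coe
  refine dense_of (μ := μ) (Φ := Ph T K₁ K₂ K₃)
    (fun e N => av_meas hTm (l1_meas _) (l1_meas _) (l1_meas _) N)
    (maxCont hTp hB0 hB₁ hB₂ hB₃) (fun k => T^[k] ⁻¹' D) (fun k => (hTm.iterate k) hDm)
    (union_conull hT hDm hD0) ?_
  intro k e r hr η hη
  obtain ⟨η', hη', hη2⟩ := ENNReal.lt_iff_exists_nnreal_btwn.1 hη
  have hη'0 : (0 : ℝ) < η' := by
    have : (0 : ℝ≥0∞) < η' := hη'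
    exact_mod_cast this
  have bnd : ∀ (K : Set ℝ) (_ : ∀ t ∈ K, |t| ≤ B) (F : KF μ K), ∀ᵐ x ∂μ, |(F : Lp ℝ 1 μ) x| ≤ B :=
    fun K hB F => by
      filter_upwards [F.2] with x hx
      exact hB _ hx
  set u : X → ℝ := fun x => two a b A (T^[k] x) with hu
  set v : X → ℝ := fun x => two a' b' A' (T^[k] x) with hv
  set w : X → ℝ := fun x => two a'' b'' A'' (T^[k] x) with hw
  have um : Measurable u := (two_meas hA).comp (hTm.iterate k)
  have vm : Measurable v := (two_meas hA').comp (hTm.iterate k)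
  have wm : Measurable w := (two_meas hA'').comp (hTm.iterate k)
  have uK : ∀ x, u x ∈ K₁ := fun x => two_mem ha hb A _
  have vK : ∀ x, v x ∈ K₂ := fun x => two_mem ha' hb' A' _
  have wK : ∀ x, w x ∈ K₃ := fun x => two_mem ha'' hb'' A'' _
  obtain ⟨E₁, E₂, E₃, hE₁, hE₂, hE₃, m₁, m₂, m₃, hm⟩ := mix3 hT hs (l1_meas (e.1 : Lp ℝ 1 μ))
    (l1_meas (e.2.1 : Lp ℝ 1 μ)) (l1_meas (e.2.2 : Lp ℝ 1 μ)) um vm wm (bnd K₁ hB₁ e.1)
    (bnd K₂ hB₂ e.2.1) (bnd K₃ hB₃ e.2.2) (Eventually.of_forall fun x => hB₁ _ (uK x))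
    (Eventually.of_forall fun x => hB₂ _ (vK x)) (Eventually.of_forall fun x => hB₃ _ (wK x))
    (ε := r / (4 * B)) (by positivity) hη'0
  obtain ⟨F₁, d₁, e₁⟩ := exists_cut hB0 hB₁ e.1 um uK hE₁ hr m₁
  obtain ⟨F₂, d₂, e₂⟩ := exists_cut hB0 hB₂ e.2.1 vm vK hE₂ hr m₂
  obtain ⟨F₃, d₃, e₃⟩ := exists_cut hB0 hB₃ e.2.2 wm wK hE₃ hr m₃
  refine ⟨(F₁, F₂, F₃), ?_, ?_⟩
  · rw [Prod.dist_eq, Prod.dist_eq]
    exact max_lt d₁ (max_lt d₂ d₃)
  · refine lt_of_le_of_lt ?_ hη2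
    have hcong := av_congr_ae (ν := id) hTp e₁ e₂ e₃
    have h1 : μ (T^[k] ⁻¹' D ∩ {x | Cv (Ph T K₁ K₂ K₃ (F₁, F₂, F₃) x)}) ≤
        μ ({x | ¬ Cv (av id T u v w x)} ∩ {x | Cv (av id T (cut E₁ (e.1 : Lp ℝ 1 μ) u)
          (cut E₂ (e.2.1 : Lp ℝ 1 μ) v) (cut E₃ (e.2.2 : Lp ℝ 1 μ) w) x)}) := by
      refine measure_mono_ae ?_
      filter_upwards [hcong] with x hx hx2
      refine ⟨?_, ?_⟩
      · have h3 : T^[k] x ∈ D := hx2.1
        have h4 : ¬ Cv (av id T (two a b A) (two a' b' A') (two a'' b'' A'') (T^[k] x)) := h3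
        rw [av_shift] at h4
        exact h4
      · have h3 : Cv (Ph T K₁ K₂ K₃ (F₁, F₂, F₃) x) := hx2.2
        unfold Ph at h3
        rw [hx] at h3
        exact h3
    refine h1.trans ?_
    rw [← ofReal_measureReal, ← ENNReal.ofReal_coe_nnreal]
    exact ENNReal.ofReal_le_ofReal hm

end Pool.Agent.K1H28.ZG
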