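import Pool.Agent.K1H28.ZG.Step
import Pool.Agent.K1H28.ZO.Tri

/-!
# Two-valued functions suffice in a fixed system; cutting and pasting of triples
-/

set_option autoImplicit false
set_option linter.unusedSectionVars false

open MeasureTheory Filter Topology Finset
open scoped ENNReal

namespace Pool.Agent.K1H28.ZG

open Pool.Agent.K1H28.ZO

variable {X : Type*} [MeasurableSpace X] {μ : Measure X} [IsProbabilityMeasure μ]

/-- the averages of all triples of essentially bounded functions converge as soon as this holds for sets -/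
theorem all_of_trip {ν : ℕ → ℕ} {T : X → X} (hT : MeasurePreserving T μ μ)
    (H : ∀ A B C : Set X, MeasurableSet A → MeasurableSet B → MeasurableSet C →
      ∀ᵐ x ∂μ, Cv (av ν T (ind A) (ind B) (ind C) x))
    (f₀ g₀ h₀ : X → ℝ) (hf₀ : MemLp f₀ ⊤ μ) (hg₀ : MemLp g₀ ⊤ μ) (hh₀ : MemLp h₀ ⊤ μ) :
    ∀ᵐ x ∂μ, Cv (av ν T f₀ g₀ h₀ x) := by
  obtain ⟨f, hf, ⟨Bf, hBf0, hBf⟩, ef⟩ := bdd_version hf₀
  obtain ⟨g, hg, ⟨Bg, hBg0, hBg⟩, eg⟩ := bdd_version hg₀
  obtain ⟨h, hh, ⟨Bh, hBh0, hBh⟩, eh⟩ := bdd_version hh₀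
  set B : ℝ := max Bf (max Bg Bh) with hB
  have b1 : ∀ x, |f x| ≤ B := fun x => (hBf x).trans (le_max_left _ _)
  have b2 : ∀ x, |g x| ≤ B := fun x => (hBg x).trans ((le_max_left _ _).trans (le_max_right _ _))
  have b3 : ∀ x, |h x| ≤ B := fun x => (hBh x).trans ((le_max_right _ _).trans (le_max_right _ _))
  have hB0 : 0 ≤ B := hBf0.trans (le_max_left _ _)
  have hlev : ∀ (u : X → ℝ), Measurable u → ∀ (e : ℝ) (j : ℤ), MeasurableSet {y | ⌊u y / e⌋ = j} := by
    intro u hu e j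
    exact (Int.measurable_floor.comp (hu.div_const e)) (measurableSet_singleton j)
  have hall : ∀ᵐ x ∂μ, ∀ (m : ℕ) (j k l : ℤ), Cv (av ν T (ind {y | ⌊f y / (1 / ((m : ℝ) + 1))⌋ = j})
      (ind {y | ⌊g y / (1 / ((m : ℝ) + 1))⌋ = k}) (ind {y | ⌊h y / (1 / ((m : ℝ) + 1))⌋ = l}) x) := by
    rw [ae_all_iff]; intro m
    rw [ae_all_iff]; intro j
    rw [ae_all_iff]; intro k
    rw [ae_all_iff]; intro l
    exact H _ _ _ (hlev f hf _ j) (hlev g hg _ k) (hlev h hh _ l)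
  filter_upwards [hall, av_congr_ae (ν := ν) hT ef eg eh] with x hx hxe
  rw [hxe]
  refine cv_of_close fun ε hε => ?_
  obtain ⟨m, hm⟩ := exists_nat_one_div_lt (show 0 < min 1 (ε / (3 * (B + 1) ^ 2 + 1)) by positivity)
  set e : ℝ := 1 / ((m : ℝ) + 1) with he
  have he0 : 0 < e := by positivity
  have he1 : e < 1 := hm.trans_le (min_le_left _ _)
  have he2 : e < ε / (3 * (B + 1) ^ 2 + 1) := hm.trans_le (min_le_right _ _)
  refine ⟨av ν T (stp f e (Icc ⌊-B / e⌋ ⌊B / e⌋)) (stp g e (Icc ⌊-B / e⌋ ⌊B / e⌋))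
    (stp h e (Icc ⌊-B / e⌋ ⌊B / e⌋)) x, ?_, ?_⟩
  · have e1 : av ν T (stp f e (Icc ⌊-B / e⌋ ⌊B / e⌋)) (stp g e (Icc ⌊-B / e⌋ ⌊B / e⌋))
        (stp h e (Icc ⌊-B / e⌋ ⌊B / e⌋)) x = fun N => ∑ j ∈ Icc ⌊-B / e⌋ ⌊B / e⌋, ((j : ℝ) * e) *
          ∑ k ∈ Icc ⌊-B / e⌋ ⌊B / e⌋, ((k : ℝ) * e) * ∑ l ∈ Icc ⌊-B / e⌋ ⌊B / e⌋, ((l : ℝ) * e) *
            av ν T (ind {y | ⌊f y / e⌋ = j}) (ind {y | ⌊g y / e⌋ = k}) (ind {y | ⌊h y / e⌋ = l}) x N := by
      funext N
      have a1 := av_sum1 (ν := ν) T (Icc ⌊-B / e⌋ ⌊B / e⌋) (fun j => (j : ℝ) * e)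
        (fun j => ind {y | ⌊f y / e⌋ = j}) (stp g e (Icc ⌊-B / e⌋ ⌊B / e⌋))
        (stp h e (Icc ⌊-B / e⌋ ⌊B / e⌋)) x N
      refine a1.trans (Finset.sum_congr rfl fun j _ => ?_)
      have a2 := av_sum2 (ν := ν) T (Icc ⌊-B / e⌋ ⌊B / e⌋) (fun j => (j : ℝ) * e)
        (fun j => ind {y | ⌊g y / e⌋ = j}) (ind {y | ⌊f y / e⌋ = j})
        (stp h e (Icc ⌊-B / e⌋ ⌊B / e⌋)) x N
      congr 1
      refine a2.trans (Finset.sum_congr rfl fun k _ => ?_)
      congr 1
      exact av_sum3 (ν := ν) T (Icc ⌊-B / e⌋ ⌊B / e⌋) (fun j => (j : ℝ) * e)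
        (fun j => ind {y | ⌊h y / e⌋ = j}) (ind {y | ⌊f y / e⌋ = j}) (ind {y | ⌊g y / e⌋ = k}) x N
    rw [e1]
    exact cv_sum _ fun j _ => cv_const_mul _ (cv_sum _ fun k _ => cv_const_mul _
      (cv_sum _ fun l _ => cv_const_mul _ (hx m j k l)))
  · intro N
    have hs : ∀ (u : X → ℝ), (∀ x, |u x| ≤ B) → ∀ x, |stp u e (Icc ⌊-B / e⌋ ⌊B / e⌋) x| ≤ B + 1 := by
      intro u hu x
      have h1 := stp_close he0 hu x
      have h2 := abs_le.1 h1
      have h3 := abs_le.1 (hu x)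
      rw [abs_le]
      constructor <;> linarith
    have hB1 : ∀ (u : X → ℝ), (∀ x, |u x| ≤ B) → ∀ x, |u x| ≤ B + 1 := fun u hu x =>
      (hu x).trans (by linarith)
    refine (av_close (by linarith : (0 : ℝ) ≤ B + 1) he0.le (fun n => hs f b1 _) (fun n => hB1 g b2 _)
      (fun n => hs g b2 _) (fun n => hB1 h b3 _) (fun n => stp_close he0 b1 _)
      (fun n => stp_close he0 b2 _) (fun n => stp_close he0 b3 _) N).trans ?_
    rw [lt_div_iff₀ (by positivity)] at he2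
    nlinarith [sq_nonneg (B + 1)]


/-- the function with the two values `a` (off `A`) and `b` (on `A`) -/
noncomputable def two (a b : ℝ) (A : Set X) (x : X) : ℝ := a + (b - a) * ind A x

lemma two_sub {a b : ℝ} (hab : a ≠ b) (A : Set X) :
    ind A = fun y => ∑ j ∈ ({0, 1} : Finset ℤ), (if j = 0 then (b - a)⁻¹ else -(b - a)⁻¹) *
      (if j = 0 then two a b A else two a b ∅) y := by
  have h : b - a ≠ 0 := sub_ne_zero.2 (Ne.symm hab)
  funext y
  rw [Finset.sum_pair (by norm_num)]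
  simp only [if_true, one_ne_zero, if_false]
  unfold two
  have : ind (∅ : Set X) y = 0 := by
    unfold ind
    simp
  rw [this]
  field_simp
  ring

/-- it suffices to consider functions with two given values -/
theorem trip_of_two {ν : ℕ → ℕ} {T : X → X} {a b a' b' a'' b'' : ℝ} (hab : a ≠ b) (hab' : a' ≠ b')
    (hab'' : a'' ≠ b'')
    (H : ∀ A B C : Set X, MeasurableSet A → MeasurableSet B → MeasurableSet C →
      ∀ᵐ x ∂μ, Cv (av ν T (two a b A) (two a' b' B) (two a'' b'' C) x))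
    (A B C : Set X) (hA : MeasurableSet A) (hB : MeasurableSet B) (hC : MeasurableSet C) :
    ∀ᵐ x ∂μ, Cv (av ν T (ind A) (ind B) (ind C) x) := by
  have h0 : MeasurableSet (∅ : Set X) := MeasurableSet.empty
  set S : Set X → ℤ → Set X := fun A j => if j = 0 then A else ∅ with hS
  have hSm : ∀ A, MeasurableSet A → ∀ j, MeasurableSet (S A j) := by
    intro A hA j
    simp only [hS]
    split_ifs
    · exact hA
    · exact h0
  set c : ℝ → ℝ → ℤ → ℝ := fun a b j => if j = 0 then (b - a)⁻¹ else -(b - a)⁻¹ with hc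
  have hind : ∀ (a b : ℝ), a ≠ b → ∀ A, ind A = fun y => ∑ j ∈ ({0, 1} : Finset ℤ), c a b j * two a b (S A j) y := by
    intro a b hab A
    rw [two_sub hab A]
    funext y
    refine Finset.sum_congr rfl fun j _ => ?_
    simp only [hc, hS]
    split_ifs <;> rfl
  have hall : ∀ᵐ x ∂μ, ∀ i j k : ℤ,
      Cv (av ν T (two a b (S A i)) (two a' b' (S B j)) (two a'' b'' (S C k)) x) := by
    rw [ae_all_iff]; intro i
    rw [ae_all_iff]; intro j
    rw [ae_all_iff]; intro k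
    exact H _ _ _ (hSm A hA i) (hSm B hB j) (hSm C hC k)
  filter_upwards [hall] with x hx
  have e1 : av ν T (ind A) (ind B) (ind C) x = fun N => ∑ i ∈ ({0, 1} : Finset ℤ), c a b i *
      ∑ j ∈ ({0, 1} : Finset ℤ), c a' b' j * ∑ k ∈ ({0, 1} : Finset ℤ), c a'' b'' k *
        av ν T (two a b (S A i)) (two a' b' (S B j)) (two a'' b'' (S C k)) x N := by
    funext N
    rw [hind a b hab A, hind a' b' hab' B, hind a'' b'' hab'' C]
    refine (av_sum1 (ν := ν) T {0, 1} (c a b) (fun j => two a b (S A j)) _ _ x N).trans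
      (Finset.sum_congr rfl fun i _ => ?_)
    congr 1
    refine (av_sum2 (ν := ν) T {0, 1} (c a' b') (fun j => two a' b' (S B j)) _ _ x N).trans
      (Finset.sum_congr rfl fun j _ => ?_)
    congr 1
    exact av_sum3 (ν := ν) T {0, 1} (c a'' b'') (fun j => two a'' b'' (S C j)) _ _ x N
  rw [e1]
  exact cv_sum _ fun i _ => cv_const_mul _ (cv_sum _ fun j _ => cv_const_mul _
    (cv_sum _ fun k _ => cv_const_mul _ (hx i j k)))

/-- cut and paste: `u` on `E`, `f` off `E` -/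
noncomputable def cut (E : Set X) (f u : X → ℝ) (x : X) : ℝ := f x + E.indicator 1 x * (u x - f x)

lemma cut_meas {E : Set X} (hE : MeasurableSet E) {f u : X → ℝ} (hf : Measurable f) (hu : Measurable u) :
    Measurable (cut E f u) :=
  hf.add ((measurable_one.indicator hE).mul (hu.sub hf))

/-- **Cut and paste.** Near every triple there is one which diverges almost wherever a given triple
diverges. -/
theorem mix3 {T : X → X} (hT : Ergodic T μ) (hs : Small μ) {f g h u v w : X → ℝ} (hf : Measurable f)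
    (hg : Measurable g) (hh : Measurable h) (hu : Measurable u) (hv : Measurable v) (hw : Measurable w)
    {B : ℝ} (bf : ∀ᵐ x ∂μ, |f x| ≤ B) (bg : ∀ᵐ x ∂μ, |g x| ≤ B) (bh : ∀ᵐ x ∂μ, |h x| ≤ B)
    (bu : ∀ᵐ x ∂μ, |u x| ≤ B) (bv : ∀ᵐ x ∂μ, |v x| ≤ B) (bw : ∀ᵐ x ∂μ, |w x| ≤ B)
    {ε η : ℝ} (hε : 0 < ε) (hη : 0 < η) :
    ∃ E₁ E₂ E₃ : Set X, MeasurableSet E₁ ∧ MeasurableSet E₂ ∧ MeasurableSet E₃ ∧
      μ.real E₁ ≤ ε ∧ μ.real E₂ ≤ ε ∧ μ.real E₃ ≤ ε ∧
      μ.real ({x | ¬ Cv (av id T u v w x)} ∩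
        {x | Cv (av id T (cut E₁ f u) (cut E₂ g v) (cut E₃ h w) x)}) ≤ η := by
  have hTp := hT.toMeasurePreserving
  have hTm : Measurable T := hTp.measurable
  obtain ⟨s, s0, sr, hse⟩ := exists_small (line_ae (ν := id) (μ := μ) hTm hf hg hh hu hv hw)
    (r := min 1 (ε / 2)) (by positivity)
  have s1 : s ≤ 1 := (sr.trans_le (min_le_left _ _)).le
  have s2 : 2 * s ≤ ε := by
    have := (sr.trans_le (min_le_right _ _)).le
    linarith
  have hB0 : 0 ≤ B := by
    obtain ⟨x, hx⟩ := bf.exists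
    exact (abs_nonneg _).trans hx
  -- the mixtures
  set gs : X → ℝ := fun y => g y + s * (v y - g y) with hgs
  set hhs : X → ℝ := fun y => h y + s * (w y - h y) with hhs'
  have gsm : Measurable gs := hg.add ((hv.sub hg).const_mul s)
  have hsm : Measurable hhs := hh.add ((hw.sub hh).const_mul s)
  have conv : ∀ p q : ℝ, |p| ≤ B → |q| ≤ B → |p + s * (q - p)| ≤ B := by
    intro p q hp hq
    have h1 := abs_le.1 hp
    have h2 := abs_le.1 hq
    rw [abs_le]
    constructor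
    · nlinarith
    · nlinarith
  have bgs : ∀ᵐ x ∂μ, |gs x| ≤ B := by
    filter_upwards [bg, bv] with x h1 h2
    exact conv _ _ h1 h2
  have bhs : ∀ᵐ x ∂μ, |hhs x| ≤ B := by
    filter_upwards [bh, bw] with x h1 h2
    exact conv _ _ h1 h2
  have bd : ∀ p q : ℝ, |p| ≤ B → |q| ≤ B → |q - p| ≤ 2 * B := by
    intro p q hp hq
    have := abs_sub q p
    linarith
  have bcut : ∀ (E : Set X) (p q : X → ℝ), (∀ᵐ x ∂μ, |p x| ≤ B) → (∀ᵐ x ∂μ, |q x| ≤ B) →
      ∀ᵐ x ∂μ, |cut E p q x| ≤ B := by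
    intro E p q hp hq
    filter_upwards [hp, hq] with x h1 h2
    unfold cut
    by_cases hx : x ∈ E
    · rw [Set.indicator_of_mem hx, Pi.one_apply, one_mul]
      simpa using h2
    · rw [Set.indicator_of_notMem hx, zero_mul, add_zero]
      exact h1
  set D : Set X := {x | ¬ Cv (av id T u v w x)} with hD
  have hDm : MeasurableSet D := (cv_measurableSet fun N => av_meas hTm hu hv hw N).compl
  have mul3 : ∀ a b c p q r : ℝ, 0 ≤ p → 0 ≤ q → 0 ≤ r → |a| ≤ p → |b| ≤ q → |c| ≤ r →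
      |a * b * c| ≤ p * q * r := by
    intro a b c p q r hp hq hr h1 h2 h3
    rw [abs_mul, abs_mul]
    exact mul_le_mul (mul_le_mul h1 h2 (abs_nonneg _) hp) h3 (abs_nonneg _) (by positivity)
  -- first function
  obtain ⟨E₁, hE₁, m₁, q₁⟩ := step hT hs (j := 1) le_rfl (fun x N => av id T f gs hhs x N)
    (fun N => av_meas hTm hf gsm hsm N)
    (fun n x => (u (T^[n] x) - f (T^[n] x)) * gs (T^[2 * n] x) * hhs (T^[3 * n] x))
    (fun n => (((hu.sub hf).comp (hTm.iterate _)).mul (gsm.comp (hTm.iterate _))).mul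
      (hsm.comp (hTm.iterate _))) (C := 2 * B * B * B) (by
        filter_upwards [ae_orbit hTp bf, ae_orbit hTp bu, ae_orbit hTp bgs, ae_orbit hTp bhs]
          with x a1 a2 a3 a4 n
        exact mul3 _ _ _ _ _ _ (by positivity) hB0 hB0 (bd _ _ (a1 _) (a2 _)) (a3 _) (a4 _))
    s0 s1 hDm (by
      filter_upwards [hse] with x hx hxD
      have h1 := hx (Or.inr hxD)
      intro h2
      apply h1
      convert h2 using 2 with N
      unfold av
      rw [id, ← mul_add, ← Finset.sum_add_distrib]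
      congr 1
      refine Finset.sum_congr rfl fun n _ => ?_
      simp only [hgs, hhs']
      ring) (η := η / 3) (by positivity)
  have e₁ : ∀ x, (fun N : ℕ => av id T f gs hhs x N + (N : ℝ)⁻¹ * ∑ n ∈ Icc 1 N,
      E₁.indicator 1 (T^[1 * n] x) * ((u (T^[n] x) - f (T^[n] x)) * gs (T^[2 * n] x) *
        hhs (T^[3 * n] x))) = av id T (cut E₁ f u) gs hhs x := by
    intro x
    funext N
    unfold av cut
    rw [id, ← mul_add, ← Finset.sum_add_distrib]
    congr 1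
    refine Finset.sum_congr rfl fun n _ => ?_
    rw [one_mul]
    ring
  simp only [e₁] at q₁
  set D₁ : Set X := D ∩ {x | ¬ Cv (av id T (cut E₁ f u) gs hhs x)} with hD₁
  have c₁m := cut_meas hE₁ hf hu
  have hD₁m : MeasurableSet D₁ := hDm.inter (cv_measurableSet fun N => av_meas hTm c₁m gsm hsm N).compl
  -- second function
  obtain ⟨E₂, hE₂, m₂, q₂⟩ := step hT hs (j := 2) (by norm_num)
    (fun x N => av id T (cut E₁ f u) g hhs x N)
    (fun N => av_meas hTm c₁m hg hsm N)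
    (fun n x => cut E₁ f u (T^[n] x) * (v (T^[2 * n] x) - g (T^[2 * n] x)) * hhs (T^[3 * n] x))
    (fun n => ((c₁m.comp (hTm.iterate _)).mul ((hv.sub hg).comp (hTm.iterate _))).mul
      (hsm.comp (hTm.iterate _))) (C := B * (2 * B) * B) (by
        filter_upwards [ae_orbit hTp bg, ae_orbit hTp bv, ae_orbit hTp (bcut E₁ f u bf bu),
          ae_orbit hTp bhs] with x a1 a2 a3 a4 n
        exact mul3 _ _ _ _ _ _ hB0 (by positivity) hB0 (a3 _) (bd _ _ (a1 _) (a2 _)) (a4 _))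
    s0 s1 hD₁m (by
      refine Eventually.of_forall fun x hx => ?_
      have h1 := hx.2
      intro h2
      apply h1
      convert h2 using 2 with N
      unfold av
      rw [id, ← mul_add, ← Finset.sum_add_distrib]
      congr 1
      refine Finset.sum_congr rfl fun n _ => ?_
      simp only [hgs]
      ring) (η := η / 3) (by positivity)
  have e₂ : ∀ x, (fun N : ℕ => av id T (cut E₁ f u) g hhs x N + (N : ℝ)⁻¹ * ∑ n ∈ Icc 1 N,
      E₂.indicator 1 (T^[2 * n] x) * (cut E₁ f u (T^[n] x) * (v (T^[2 * n] x) - g (T^[2 * n] x)) *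
        hhs (T^[3 * n] x))) = av id T (cut E₁ f u) (cut E₂ g v) hhs x := by
    intro x
    funext N
    unfold av
    rw [id, ← mul_add, ← Finset.sum_add_distrib]
    congr 1
    refine Finset.sum_congr rfl fun n _ => ?_
    have : cut E₂ g v (T^[2 * n] x) = g (T^[2 * n] x) + E₂.indicator 1 (T^[2 * n] x) *
      (v (T^[2 * n] x) - g (T^[2 * n] x)) := rfl
    rw [this]
    ring
  simp only [e₂] at q₂
  set D₂ : Set X := D₁ ∩ {x | ¬ Cv (av id T (cut E₁ f u) (cut E₂ g v) hhs x)} with hD₂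
  have c₂m := cut_meas hE₂ hg hv
  have hD₂m : MeasurableSet D₂ := hD₁m.inter (cv_measurableSet fun N => av_meas hTm c₁m c₂m hsm N).compl
  -- third function
  obtain ⟨E₃, hE₃, m₃, q₃⟩ := step hT hs (j := 3) (by norm_num)
    (fun x N => av id T (cut E₁ f u) (cut E₂ g v) h x N)
    (fun N => av_meas hTm c₁m c₂m hh N)
    (fun n x => cut E₁ f u (T^[n] x) * cut E₂ g v (T^[2 * n] x) * (w (T^[3 * n] x) - h (T^[3 * n] x)))
    (fun n => ((c₁m.comp (hTm.iterate _)).mul (c₂m.comp (hTm.iterate _))).mul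
      ((hw.sub hh).comp (hTm.iterate _))) (C := B * B * (2 * B)) (by
        filter_upwards [ae_orbit hTp bh, ae_orbit hTp bw, ae_orbit hTp (bcut E₁ f u bf bu),
          ae_orbit hTp (bcut E₂ g v bg bv)] with x a1 a2 a3 a4 n
        exact mul3 _ _ _ _ _ _ hB0 hB0 (by positivity) (a3 _) (a4 _) (bd _ _ (a1 _) (a2 _)))
    s0 s1 hD₂m (by
      refine Eventually.of_forall fun x hx => ?_
      have h1 := hx.2
      intro h2
      apply h1
      convert h2 using 2 with N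
      unfold av
      rw [id, ← mul_add, ← Finset.sum_add_distrib]
      congr 1
      refine Finset.sum_congr rfl fun n _ => ?_
      simp only [hhs']
      ring) (η := η / 3) (by positivity)
  have e₃ : ∀ x, (fun N : ℕ => av id T (cut E₁ f u) (cut E₂ g v) h x N + (N : ℝ)⁻¹ * ∑ n ∈ Icc 1 N,
      E₃.indicator 1 (T^[3 * n] x) * (cut E₁ f u (T^[n] x) * cut E₂ g v (T^[2 * n] x) *
        (w (T^[3 * n] x) - h (T^[3 * n] x)))) = av id T (cut E₁ f u) (cut E₂ g v) (cut E₃ h w) x := by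
    intro x
    funext N
    unfold av
    rw [id, ← mul_add, ← Finset.sum_add_distrib]
    congr 1
    refine Finset.sum_congr rfl fun n _ => ?_
    have : cut E₃ h w (T^[3 * n] x) = h (T^[3 * n] x) + E₃.indicator 1 (T^[3 * n] x) *
      (w (T^[3 * n] x) - h (T^[3 * n] x)) := rfl
    rw [this]
    ring
  simp only [e₃] at q₃
  refine ⟨E₁, E₂, E₃, hE₁, hE₂, hE₃, m₁.trans s2, m₂.trans s2, m₃.trans s2, ?_⟩
  have hsub : D ∩ {x | Cv (av id T (cut E₁ f u) (cut E₂ g v) (cut E₃ h w) x)} ⊆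
      (D ∩ {x | Cv (av id T (cut E₁ f u) gs hhs x)}) ∪
      ((D₁ ∩ {x | Cv (av id T (cut E₁ f u) (cut E₂ g v) hhs x)}) ∪
      (D₂ ∩ {x | Cv (av id T (cut E₁ f u) (cut E₂ g v) (cut E₃ h w) x)})) := by
    rintro x ⟨hx1, hx2⟩
    by_cases h1 : Cv (av id T (cut E₁ f u) gs hhs x)
    · exact Or.inl ⟨hx1, h1⟩
    · by_cases h2 : Cv (av id T (cut E₁ f u) (cut E₂ g v) hhs x)
      · exact Or.inr (Or.inl ⟨⟨hx1, h1⟩, h2⟩)
      · exact Or.inr (Or.inr ⟨⟨⟨hx1, h1⟩, h2⟩, hx2⟩)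
  refine (measureReal_mono hsub (measure_ne_top _ _)).trans ((measureReal_union_le _ _).trans ?_)
  have := measureReal_union_le (μ := μ) (D₁ ∩ {x | Cv (av id T (cut E₁ f u) (cut E₂ g v) hhs x)})
    (D₂ ∩ {x | Cv (av id T (cut E₁ f u) (cut E₂ g v) (cut E₃ h w) x)})
  linarith

end Pool.Agent.K1H28.ZG
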