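import Pool.Agent.K1H28.ZG.W
import Pool.Agent.K1H28.ZO.Zero
import Pool.Agent.H165R3.Birk

/-!
# Fine partitions for ergodic maps
-/

set_option autoImplicit false
set_option linter.unusedSectionVars false

open MeasureTheory Filter Topology Finset
open scoped ENNReal

namespace Pool.Agent.K1H28.ZG

open Pool.Agent.K1H28.ZO

variable {X : Type*} [MeasurableSpace X] {μ : Measure X} [IsProbabilityMeasure μ]

/-- there are sets of arbitrarily small positive measure -/
def Small (μ : Measure X) : Prop := ∀ ε : ℝ, 0 < ε → ∃ B : Set X, MeasurableSet B ∧ μ B ≠ 0 ∧ μ.real B ≤ ε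

open Classical in
/-- the time of the first visit to `B` before time `J` (`J` if there is none) -/
noncomputable def fv (T : X → X) (B : Set X) : (J : ℕ) → X → ℕ
  | 0, _ => 0
  | J + 1, x => if x ∈ B then 0 else fv T B J (T x) + 1

lemma fv_le (T : X → X) (B : Set X) (J : ℕ) : ∀ x, fv T B J x ≤ J := by
  induction J with
  | zero => intro x; simp [fv]
  | succ J ih =>
    intro x
    unfold fv
    split_ifs
    · exact Nat.zero_le _
    · exact Nat.succ_le_succ (ih _)

lemma fv_lt (T : X → X) (B : Set X) (J : ℕ) : ∀ x, fv T B J x < J → T^[fv T B J x] x ∈ B := by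
  induction J with
  | zero => intro x h; exact absurd h (Nat.not_lt_zero _)
  | succ J ih =>
    intro x h
    unfold fv at h ⊢
    split_ifs with hx
    · exact hx
    · rw [if_neg hx] at h
      rw [Function.iterate_succ_apply]
      exact ih _ (Nat.lt_of_succ_lt_succ h)

lemma fv_eq (T : X → X) (B : Set X) (J : ℕ) : ∀ x, fv T B J x = J → ∀ k < J, T^[k] x ∉ B := by
  induction J with
  | zero => intro x _ k hk; exact absurd hk (Nat.not_lt_zero _)
  | succ J ih =>
    intro x h k hk
    unfold fv at h
    split_ifs at h with hx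
    rcases k with _ | k
    · exact hx
    · rw [Function.iterate_succ_apply]
      exact ih _ (Nat.succ.inj h) k (Nat.lt_of_succ_lt_succ hk)

lemma fv_meas {T : X → X} (hT : Measurable T) {B : Set X} (hB : MeasurableSet B) (J : ℕ) :
    Measurable (fv T B J) := by
  induction J with
  | zero => exact measurable_const
  | succ J ih =>
    classical
    have e : fv T B (J + 1) = fun x => if x ∈ B then 0 else fv T B J (T x) + 1 := by
      funext x
      rfl
    rw [e]
    exact Measurable.ite hB measurable_const ((ih.comp hT).add_const 1)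

/-- fine partitions -/
theorem exists_label {T : X → X} (hT : Ergodic T μ) (hs : Small μ) {κ : ℝ} (hκ : 0 < κ) :
    ∃ (K : ℕ) (ξ : X → Fin K), Measurable ξ ∧ 0 < K ∧ ∀ q, μ.real (ξ ⁻¹' {q}) ≤ κ := by
  obtain ⟨B, hB, hB0, hBκ⟩ := hs κ hκ
  have hTm : Measurable T := hT.toMeasurePreserving.measurable
  have hcon := union_conull hT hB hB0
  set S : ℕ → Set X := fun J => {x | ∀ k < J, T^[k] x ∉ B} with hS
  have hSm : ∀ J, MeasurableSet (S J) := by
    intro J
    have e : S J = ⋂ k : ℕ, ⋂ (_ : k < J), (T^[k] ⁻¹' B)ᶜ := by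
      ext x
      simp [hS]
    rw [e]
    exact MeasurableSet.iInter fun k => MeasurableSet.iInter fun _ => ((hTm.iterate k) hB).compl
  have hanti : Antitone S := fun a b hab x hx k hk => hx k (hk.trans_le hab)
  have h0 : μ (⋂ J, S J) = 0 := by
    refine measure_mono_null ?_ (ae_iff.1 hcon)
    intro x hx
    simp only [Set.mem_ofPred_eq, Set.mem_iUnion, not_exists]
    intro k hk
    rw [Set.mem_iInter] at hx
    exact hx (k + 1) k (Nat.lt_succ_self k) hk
  have ht := tendsto_measure_iInter_atTop (fun J => (hSm J).nullMeasurableSet) hanti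
    ⟨0, measure_ne_top μ _⟩
  rw [h0] at ht
  obtain ⟨J, hJ⟩ := (ht.eventually (gt_mem_nhds (ENNReal.ofReal_pos.2 hκ))).exists
  refine ⟨J + 1, fun x => ⟨fv T B J x, Nat.lt_succ_of_le (fv_le T B J x)⟩, ?_, Nat.succ_pos _, ?_⟩
  · refine measurable_to_countable' fun q => ?_
    have e : (fun x => (⟨fv T B J x, Nat.lt_succ_of_le (fv_le T B J x)⟩ : Fin (J + 1))) ⁻¹' {q} =
        fv T B J ⁻¹' {(q : ℕ)} := by
      ext x
      simp [Fin.ext_iff]
    rw [e]
    exact (fv_meas hTm hB J) (measurableSet_singleton _)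
  · intro q
    rcases Nat.lt_or_ge (q : ℕ) J with hq | hq
    · refine le_trans ?_ hBκ
      have h1 : μ (T^[(q : ℕ)] ⁻¹' B) = μ B :=
        (hT.toMeasurePreserving.iterate _).measure_preimage hB.nullMeasurableSet
      rw [Measure.real, Measure.real, ← h1]
      refine ENNReal.toReal_mono (measure_ne_top _ _) (measure_mono ?_)
      intro x hx
      have hx' : fv T B J x = q := by
        have := congrArg Fin.val (show _ = q from hx)
        exact this
      have := fv_lt T B J x (by rw [hx']; exact hq)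
      rw [hx'] at this
      exact this
    · have h1 : μ ((fun x => (⟨fv T B J x, Nat.lt_succ_of_le (fv_le T B J x)⟩ : Fin (J + 1))) ⁻¹' {q}) ≤
          ENNReal.ofReal κ := by
        refine le_trans (measure_mono ?_) hJ.le
        intro x hx
        have hx' : fv T B J x = q := by
          have := congrArg Fin.val (show _ = q from hx)
          exact this
        exact fv_eq T B J x (by have := q.2; omega)
      rw [Measure.real]
      exact ENNReal.toReal_le_of_le_ofReal hκ.le h1

/-- the frequency of a label along multiples of `j` -/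
lemma freq_upper {T : X → X} (hT : Ergodic T μ) {K : ℕ} {ξ : X → Fin K} (hξ : Measurable ξ) (q : Fin K)
    {j : ℕ} (hj : 1 ≤ j) {ε : ℝ} (hε : 0 < ε) :
    ∀ᵐ x ∂μ, ∀ᶠ N : ℕ in atTop, frq (fun n => ξ (T^[j * n] x)) N q ≤ j * μ.real (ξ ⁻¹' {q}) + ε := by
  classical
  set φ : X → ℝ := (ξ ⁻¹' {q}).indicator 1 with hφ
  have hQ : MeasurableSet (ξ ⁻¹' {q}) := hξ (measurableSet_singleton _)
  have hφm : Measurable φ := measurable_one.indicator hQ
  have hφ0 : ∀ x, 0 ≤ φ x := fun x => Set.indicator_nonneg (fun _ _ => zero_le_one) x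
  have hb : ∃ C, ∀ x, |φ x| ≤ C := ⟨1, fun x => by
    rw [abs_of_nonneg (hφ0 x)]
    exact Set.indicator_le_self' (fun _ _ => zero_le_one) x⟩
  have hint : ∫ x, φ x ∂μ = μ.real (ξ ⁻¹' {q}) := by
    rw [hφ, integral_indicator_one hQ]
  have hj0 : (0 : ℝ) < j := by exact_mod_cast hj
  have h1 := Pool.Agent.H165R3.BIRK.upper hT φ hφm hb (ε / j) (by positivity)
  have h2 := hT.toMeasurePreserving.quasiMeasurePreserving.ae h1
  filter_upwards [h2] with x hx
  obtain ⟨M, hM⟩ := eventually_atTop.1 hx
  filter_upwards [eventually_ge_atTop (M + 1)] with N hN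
  have hN0 : (0 : ℝ) < N := by
    have : 0 < N := by omega
    exact_mod_cast this
  have h3 := hM (j * N) (by nlinarith)
  rw [hint] at h3
  have h4 : frq (fun n => ξ (T^[j * n] x)) N q ≤
      j * (((j * N : ℕ) : ℝ)⁻¹ * ∑ k ∈ Finset.range (j * N), φ (T^[k] (T x))) := by
    unfold frq
    have e1 : (j : ℝ) * (((j * N : ℕ) : ℝ)⁻¹ * ∑ k ∈ Finset.range (j * N), φ (T^[k] (T x))) =
        (N : ℝ)⁻¹ * ∑ k ∈ Finset.range (j * N), φ (T^[k] (T x)) := by
      push_cast
      field_simp
    rw [e1]
    refine mul_le_mul_of_nonneg_left ?_ (by positivity)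
    have e2 : ∀ n, (if ξ (T^[j * n] x) = q then (1 : ℝ) else 0) = φ (T^[j * n] x) := by
      intro n
      simp only [hφ, Set.indicator_apply, Set.mem_preimage, Set.mem_singleton_iff, Pi.one_apply]
    simp only [e2]
    have e3 : ∑ n ∈ Icc 1 N, φ (T^[j * n] x) =
        ∑ k ∈ (Icc 1 N).image (fun n => j * n - 1), φ (T^[k] (T x)) := by
      rw [Finset.sum_image]
      · refine Finset.sum_congr rfl fun n hn => ?_
        rw [Finset.mem_Icc] at hn
        rw [← Function.iterate_succ_apply]
        have : 1 ≤ j * n := Nat.mul_pos hj hn.1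
        have e4 : (j * n - 1).succ = j * n := by omega
        rw [e4]
      · intro a ha b hb' hab
        simp only [Finset.coe_Icc, Set.mem_Icc] at ha hb'
        have h5 : 1 ≤ j * a := Nat.mul_pos hj ha.1
        have h6 : 1 ≤ j * b := Nat.mul_pos hj hb'.1
        have h7 : j * a = j * b := by
          have : j * a - 1 = j * b - 1 := hab
          omega
        exact Nat.eq_of_mul_eq_mul_left hj h7
    rw [e3]
    refine Finset.sum_le_sum_of_subset_of_nonneg ?_ fun k _ _ => hφ0 _
    intro k hk
    rw [Finset.mem_image] at hk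
    obtain ⟨n, hn, rfl⟩ := hk
    rw [Finset.mem_Icc] at hn
    rw [Finset.mem_range]
    have h5 : 1 ≤ j * n := Nat.mul_pos hj hn.1
    have h6 : j * n ≤ j * N := Nat.mul_le_mul_left j hn.2
    omega
  refine h4.trans ?_
  have h5 := mul_le_mul_of_nonneg_left h3 hj0.le
  refine h5.trans (le_of_eq ?_)
  rw [mul_add]
  congr 1
  field_simp

end Pool.Agent.K1H28.ZG
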