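import Pool.Agent.K1H28.ZG.Mix
import Pool.Agent.R243.Erg.Max

/-!
# The spaces of functions with values in a compact set, with the `L¹` distance
-/

set_option autoImplicit false
set_option linter.unusedSectionVars false

open MeasureTheory Filter Topology Finset
open scoped ENNReal

namespace Pool.Agent.K1H28.ZG

open Pool.Agent.K1H28.ZO

section Baire

variable {X : Type*} [MeasurableSpace X] {μ : Measure X} [IsProbabilityMeasure μ]
  {E : Type*} [PseudoMetricSpace E]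

/-- the points with small probability of convergence on `D` -/
def VV (μ : Measure X) (Φ : E → X → ℕ → ℝ) (D : Set X) (ε : ℝ≥0∞) : Set E :=
  {e | μ (D ∩ {x | Cv (Φ e x)}) < ε}

/-- continuity in measure, uniformly in the scale -/
def MaxCont (μ : Measure X) (Φ : E → X → ℕ → ℝ) : Prop :=
  ∀ e, ∀ τ : ℝ, 0 < τ → ∀ η : ℝ≥0∞, 0 < η → ∃ r : ℝ, 0 < r ∧ ∀ e', dist e' e < r →
    μ {x | ∃ N, τ < |Φ e x N - Φ e' x N|} ≤ η

lemma VV_open {Φ : E → X → ℕ → ℝ} (hm : ∀ e N, Measurable fun x => Φ e x N) (hc : MaxCont μ Φ)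
    {D : Set X} (hD : MeasurableSet D) (ε : ℝ≥0∞) : IsOpen (VV μ Φ D ε) := by
  rw [Metric.isOpen_iff]
  intro e he
  have he' : μ (D ∩ {x | Cv (Φ e x)}) < ε := he
  set S : ℕ → Set X := fun n => D ∩ {x | ¬ Osc (Φ e x) (1 / ((n : ℝ) + 1))} with hS
  have hSm : ∀ n, NullMeasurableSet (S n) μ := fun n =>
    (hD.inter (osc_measurableSet (hm e) _).compl).nullMeasurableSet
  have hanti : Antitone S := by
    intro a b hab x hx
    refine ⟨hx.1, fun ho => hx.2 (osc_mono ?_ ho)⟩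
    apply one_div_le_one_div_of_le (by positivity)
    have : (a : ℝ) ≤ b := by exact_mod_cast hab
    linarith
  have h0 : μ (⋂ n, S n) ≤ μ (D ∩ {x | Cv (Φ e x)}) := by
    refine measure_mono ?_
    intro x hx
    rw [Set.mem_iInter] at hx
    refine ⟨(hx 0).1, ?_⟩
    by_contra hcv
    obtain ⟨δ, hδ, ho⟩ := osc_of_not_cv hcv
    obtain ⟨n, hn⟩ := exists_nat_one_div_lt hδ
    exact (hx n).2 (osc_mono hn.le ho)
  have ht := tendsto_measure_iInter_atTop hSm hanti ⟨0, measure_ne_top _ _⟩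
  obtain ⟨n, hn⟩ := (ht.eventually (gt_mem_nhds (h0.trans_lt he'))).exists
  set δ : ℝ := 1 / ((n : ℝ) + 1) with hδ
  have hδ0 : 0 < δ := by positivity
  obtain ⟨η, hη, hη2⟩ := ENNReal.lt_iff_exists_add_pos_lt.1 hn
  obtain ⟨r, hr, hr2⟩ := hc e (δ / 4) (by positivity) η (by exact_mod_cast hη)
  refine ⟨r, hr, fun e' he'' => ?_⟩
  have h1 := hr2 e' (Metric.mem_ball.1 he'')
  show μ (D ∩ {x | Cv (Φ e' x)}) < ε
  refine lt_of_le_of_lt ?_ hη2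
  calc μ (D ∩ {x | Cv (Φ e' x)}) ≤ μ (S n ∪ {x | ∃ N, δ / 4 < |Φ e x N - Φ e' x N|}) := by
        refine measure_mono ?_
        rintro x ⟨hxD, hxC⟩
        by_cases h2 : ∃ N, δ / 4 < |Φ e x N - Φ e' x N|
        · exact Or.inr h2
        · push Not at h2
          left
          refine ⟨hxD, fun ho => ?_⟩
          exact not_cv_of_osc (by linarith : 0 < δ - 2 * (δ / 4)) (osc_close ho h2) hxC
    _ ≤ μ (S n) + μ {x | ∃ N, δ / 4 < |Φ e x N - Φ e' x N|} := measure_union_le _ _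
    _ ≤ μ (S n) + η := add_le_add le_rfl h1

lemma ae_iff_VV (Φ : E → X → ℕ → ℝ) (D : Set X) (e : E) :
    (∀ᵐ x ∂μ, x ∈ D → ¬ Cv (Φ e x)) ↔ ∀ j : ℕ, e ∈ VV μ Φ D (((j : ℝ≥0∞) + 1)⁻¹) := by
  have hset : {x | ¬ (x ∈ D → ¬ Cv (Φ e x))} = D ∩ {x | Cv (Φ e x)} := by
    ext x
    simp only [Set.mem_ofPred_eq, Set.mem_inter_iff]
    tauto
  rw [ae_iff, hset]
  constructor
  · intro h j
    show μ _ < _
    rw [h, ENNReal.inv_pos]
    exact ENNReal.add_ne_top.2 ⟨ENNReal.natCast_ne_top _, ENNReal.one_ne_top⟩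
  · intro h
    by_contra hne
    obtain ⟨j, hj⟩ := ENNReal.exists_inv_nat_lt hne
    refine absurd ((h j).trans_le ?_) (lt_asymm hj)
    exact ENNReal.inv_le_inv.2 (self_le_add_right _ _)

lemma gdelta {Φ : E → X → ℕ → ℝ} (hm : ∀ e N, Measurable fun x => Φ e x N) (hc : MaxCont μ Φ)
    {D : Set X} (hD : MeasurableSet D) : IsGδ {e | ∀ᵐ x ∂μ, x ∈ D → ¬ Cv (Φ e x)} := by
  have e : {e | ∀ᵐ x ∂μ, x ∈ D → ¬ Cv (Φ e x)} = ⋂ j : ℕ, VV μ Φ D (((j : ℝ≥0∞) + 1)⁻¹) := by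
    ext e
    rw [Set.mem_iInter]
    exact ae_iff_VV Φ D e
  rw [e]
  exact IsGδ.iInter_of_isOpen fun j => VV_open hm hc hD _

lemma dense_of [BaireSpace E] {Φ : E → X → ℕ → ℝ} (hm : ∀ e N, Measurable fun x => Φ e x N)
    (hc : MaxCont μ Φ) (D : ℕ → Set X) (hD : ∀ k, MeasurableSet (D k))
    (hcov : ∀ᵐ x ∂μ, x ∈ ⋃ k, D k)
    (hdens : ∀ k, ∀ e : E, ∀ r : ℝ, 0 < r → ∀ η : ℝ≥0∞, 0 < η → ∃ e', dist e' e < r ∧
      μ (D k ∩ {x | Cv (Φ e' x)}) < η) :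
    Dense {e | ∀ᵐ x ∂μ, ¬ Cv (Φ e x)} := by
  have h1 : Dense (⋂ k : ℕ, ⋂ j : ℕ, VV μ Φ (D k) (((j : ℝ≥0∞) + 1)⁻¹)) := by
    refine dense_iInter_of_Gδ (fun k => IsGδ.iInter_of_isOpen fun j => VV_open hm hc (hD k) _)
      fun k => dense_iInter_of_isOpen (fun j => VV_open hm hc (hD k) _) fun j => ?_
    rw [Metric.dense_iff]
    intro e r hr
    obtain ⟨e', he', h2⟩ := hdens k e r hr (((j : ℝ≥0∞) + 1)⁻¹) (by
      rw [ENNReal.inv_pos]
      exact ENNReal.add_ne_top.2 ⟨ENNReal.natCast_ne_top _, ENNReal.one_ne_top⟩)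
    exact ⟨e', Metric.mem_ball.2 he', h2⟩
  refine h1.mono fun e he => ?_
  simp only [Set.mem_iInter] at he
  have h2 : ∀ᵐ x ∂μ, ∀ k, x ∈ D k → ¬ Cv (Φ e x) := by
    rw [ae_all_iff]
    intro k
    exact (ae_iff_VV Φ (D k) e).2 (he k)
  filter_upwards [h2, hcov] with x hx1 hx2
  obtain ⟨k, hk⟩ := Set.mem_iUnion.1 hx2
  exact hx1 k hk

end Baire

section Fun

variable {X : Type*} [MeasurableSpace X] {μ : Measure X} [IsProbabilityMeasure μ]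

/-- the measurable functions with values in `K` almost everywhere, up to null sets, as a subset of `L¹` -/
def KF (μ : Measure X) (K : Set ℝ) : Set (Lp ℝ 1 μ) := {f | ∀ᵐ x ∂μ, f x ∈ K}

lemma KF_closed {K : Set ℝ} (hK : IsClosed K) : IsClosed (KF μ K) := by
  rw [← isSeqClosed_iff_isClosed]
  intro f g hf hg
  have h1 := tendstoInMeasure_of_tendsto_Lp (μ := μ) (p := 1) hg
  obtain ⟨ns, _, h2⟩ := h1.exists_seq_tendsto_ae
  have h3 : ∀ᵐ x ∂μ, ∀ n, f n x ∈ K := ae_all_iff.2 hf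
  show ∀ᵐ x ∂μ, g x ∈ K
  filter_upwards [h2, h3] with x hx1 hx2
  exact hK.mem_of_tendsto hx1 (Eventually.of_forall fun n => hx2 _)

lemma l1_meas (F : Lp ℝ 1 μ) : Measurable (F : X → ℝ) := (Lp.stronglyMeasurable F).measurable

lemma l1_dist (F G : Lp ℝ 1 μ) : dist F G = ∫ x, |F x - G x| ∂μ := by
  rw [dist_eq_norm, L1.norm_eq_integral_norm]
  refine integral_congr_ae ?_
  filter_upwards [Lp.coeFn_sub F G] with x hx
  rw [hx, Pi.sub_apply, Real.norm_eq_abs]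

lemma l1_int (F G : Lp ℝ 1 μ) : Integrable (fun x => |F x - G x|) μ :=
  ((L1.integrable_coeFn F).sub (L1.integrable_coeFn G)).abs

lemma sum_shift (f : ℕ → ℝ) (N : ℕ) : ∑ n ∈ range N, f (n + 1) = ∑ n ∈ Icc 1 N, f n := by
  induction N with
  | zero => simp
  | succ N ih => rw [Finset.sum_range_succ, ih, Finset.sum_Icc_succ_top (by omega)]

/-- the maximal inequality along multiples of `j` -/
lemma max_j {T : X → X} (hT : MeasurePreserving T μ μ) (j : ℕ) {φ : X → ℝ} (hφ : Measurable φ)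
    (hi : Integrable φ μ) (h0 : ∀ x, 0 ≤ φ x) {τ : ℝ} (hτ : 0 < τ) :
    μ {x | ∃ N : ℕ, τ < (N : ℝ)⁻¹ * ∑ n ∈ Icc 1 N, φ (T^[j * n] x)} ≤
      ENNReal.ofReal ((∫ x, φ x ∂μ) / τ) := by
  have h1 := Pool.Agent.R243.Erg.max_ineq (hT.iterate j) hφ hi h0 hτ
  have hR := hT.iterate j
  refine le_trans ?_ h1
  set S : Set X := {y | ∃ k : ℕ, τ * k < ∑ i ∈ Finset.range k, φ ((T^[j])^[i] y)} with hS
  have hSm : MeasurableSet S := by
    have : S = ⋃ k : ℕ, {y | τ * k < ∑ i ∈ Finset.range k, φ ((T^[j])^[i] y)} := by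
      ext y
      simp [hS]
    rw [this]
    exact MeasurableSet.iUnion fun k => measurableSet_lt measurable_const
      (Finset.measurable_fun_sum _ fun i _ => hφ.comp (hR.measurable.iterate i))
  rw [← hR.measure_preimage hSm.nullMeasurableSet]
  refine measure_mono ?_
  rintro x ⟨N, hN⟩
  refine ⟨N, ?_⟩
  rcases Nat.eq_zero_or_pos N with rfl | hN0
  · exfalso
    simp at hN
    linarith
  have hN1 : (0 : ℝ) < N := by exact_mod_cast hN0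
  have e : ∑ i ∈ Finset.range N, φ ((T^[j])^[i] (T^[j] x)) = ∑ n ∈ Icc 1 N, φ (T^[j * n] x) := by
    rw [← sum_shift (fun n => φ (T^[j * n] x)) N]
    refine Finset.sum_congr rfl fun i _ => ?_
    rw [← Function.iterate_succ_apply, ← Function.iterate_mul]
  rw [e]
  rw [inv_mul_eq_div, lt_div_iff₀ hN1] at hN
  exact hN

/-- the averages for triples in the function space -/
noncomputable def Ph (T : X → X) (K₁ K₂ K₃ : Set ℝ) (e : KF μ K₁ × KF μ K₂ × KF μ K₃) (x : X) : ℕ → ℝ :=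
  av id T (e.1 : Lp ℝ 1 μ) (e.2.1 : Lp ℝ 1 μ) (e.2.2 : Lp ℝ 1 μ) x

lemma maxCont {T : X → X} (hT : MeasurePreserving T μ μ) {K₁ K₂ K₃ : Set ℝ} {B : ℝ} (hB0 : 0 < B)
    (hB₁ : ∀ t ∈ K₁, |t| ≤ B) (hB₂ : ∀ t ∈ K₂, |t| ≤ B) (hB₃ : ∀ t ∈ K₃, |t| ≤ B) :
    MaxCont μ (Ph (μ := μ) T K₁ K₂ K₃) := by
  intro e τ hτ η hη
  have hbd : ∀ (K : Set ℝ) (_ : ∀ t ∈ K, |t| ≤ B) (F : KF μ K), ∀ᵐ x ∂μ, |(F : Lp ℝ 1 μ) x| ≤ B :=
    fun K hB F => by
      filter_upwards [F.2] with x hx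
      exact hB _ hx
  -- a real number below `η`
  obtain ⟨η', hη', hη2⟩ : ∃ η' : ℝ, 0 < η' ∧ ENNReal.ofReal η' ≤ η := by
    rcases eq_or_ne η ⊤ with h | h
    · exact ⟨1, one_pos, h ▸ le_top⟩
    · exact ⟨η.toReal, ENNReal.toReal_pos hη.ne' h, (ENNReal.ofReal_toReal h).le⟩
  refine ⟨η' / 3 * (τ / 3) / B ^ 2, by positivity, fun e' he => ?_⟩
  have d1 : dist (e.1 : Lp ℝ 1 μ) e'.1 < η' / 3 * (τ / 3) / B ^ 2 := by
    rw [dist_comm]
    exact lt_of_le_of_lt (le_max_left _ _) he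
  have d2 : dist (e.2.1 : Lp ℝ 1 μ) e'.2.1 < η' / 3 * (τ / 3) / B ^ 2 := by
    rw [dist_comm]
    exact lt_of_le_of_lt ((le_max_left _ _).trans (le_max_right _ _)) he
  have d3 : dist (e.2.2 : Lp ℝ 1 μ) e'.2.2 < η' / 3 * (τ / 3) / B ^ 2 := by
    rw [dist_comm]
    exact lt_of_le_of_lt ((le_max_right _ _).trans (le_max_right _ _)) he
  have key : ∀ (j : ℕ) (F G : Lp ℝ 1 μ), dist F G < η' / 3 * (τ / 3) / B ^ 2 →
      μ {x | ∃ N : ℕ, τ / 3 < (N : ℝ)⁻¹ * ∑ n ∈ Icc 1 N, B ^ 2 * |F (T^[j * n] x) - G (T^[j * n] x)|} ≤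
        ENNReal.ofReal (η' / 3) := by
    intro j F G hFG
    refine (max_j hT j (φ := fun x => B ^ 2 * |F x - G x|)
      (((l1_meas F).sub (l1_meas G)).abs.const_mul _) ((l1_int F G).const_mul _)
      (fun x => by positivity) (by positivity : 0 < τ / 3)).trans ?_
    apply ENNReal.ofReal_le_ofReal
    rw [integral_const_mul, ← l1_dist, div_le_iff₀ (by positivity)]
    rw [lt_div_iff₀ (by positivity)] at hFG
    linarith
  have hae : ∀ᵐ x ∂μ, ∀ N : ℕ, |Ph T K₁ K₂ K₃ e x N - Ph T K₁ K₂ K₃ e' x N| ≤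
      (N : ℝ)⁻¹ * ∑ n ∈ Icc 1 N, B ^ 2 * |(e.1 : Lp ℝ 1 μ) (T^[1 * n] x) - (e'.1 : Lp ℝ 1 μ) (T^[1 * n] x)| +
      (N : ℝ)⁻¹ * ∑ n ∈ Icc 1 N, B ^ 2 * |(e.2.1 : Lp ℝ 1 μ) (T^[2 * n] x) - (e'.2.1 : Lp ℝ 1 μ) (T^[2 * n] x)| +
      (N : ℝ)⁻¹ * ∑ n ∈ Icc 1 N, B ^ 2 * |(e.2.2 : Lp ℝ 1 μ) (T^[3 * n] x) - (e'.2.2 : Lp ℝ 1 μ) (T^[3 * n] x)| := by
    filter_upwards [ae_orbit hT (hbd K₁ hB₁ e'.1), ae_orbit hT (hbd K₂ hB₂ e.2.1),
      ae_orbit hT (hbd K₂ hB₂ e'.2.1), ae_orbit hT (hbd K₃ hB₃ e.2.2)] with x a1 a2 a3 a4 N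
    unfold Ph av
    rw [id, ← mul_sub, ← mul_add, ← mul_add, ← Finset.sum_sub_distrib, ← Finset.sum_add_distrib,
      ← Finset.sum_add_distrib, abs_mul, abs_inv, Nat.abs_cast]
    refine mul_le_mul_of_nonneg_left ?_ (by positivity)
    refine (Finset.abs_sum_le_sum_abs _ _).trans (Finset.sum_le_sum fun n _ => ?_)
    rw [one_mul]
    generalize (e.1 : Lp ℝ 1 μ) (T^[n] x) = p
    have a1' := a1 n
    generalize (e'.1 : Lp ℝ 1 μ) (T^[n] x) = p' at a1' ⊢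
    have a2' := a2 (2 * n)
    generalize (e.2.1 : Lp ℝ 1 μ) (T^[2 * n] x) = q at a2' ⊢
    have a3' := a3 (2 * n)
    generalize (e'.2.1 : Lp ℝ 1 μ) (T^[2 * n] x) = q' at a3' ⊢
    have a4' := a4 (3 * n)
    generalize (e.2.2 : Lp ℝ 1 μ) (T^[3 * n] x) = u at a4' ⊢
    generalize (e'.2.2 : Lp ℝ 1 μ) (T^[3 * n] x) = u'
    have e0 : p * q * u - p' * q' * u' = (p - p') * q * u + p' * (q - q') * u + p' * q' * (u - u') := by
      ring
    rw [e0]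
    refine (abs_add_le _ _).trans (add_le_add ((abs_add_le _ _).trans (add_le_add ?_ ?_)) ?_)
    · rw [abs_mul, abs_mul]
      have := mul_le_mul (mul_le_mul_of_nonneg_left a2' (abs_nonneg (p - p'))) a4' (abs_nonneg _)
        (by positivity)
      linarith
    · rw [abs_mul, abs_mul]
      have := mul_le_mul (mul_le_mul_of_nonneg_right a1' (abs_nonneg (q - q'))) a4' (abs_nonneg _)
        (by positivity)
      linarith
    · rw [abs_mul, abs_mul]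
      have := mul_le_mul_of_nonneg_right (mul_le_mul a1' a3' (abs_nonneg _) hB0.le)
        (abs_nonneg (u - u'))
      linarith
  calc μ {x | ∃ N, τ < |Ph T K₁ K₂ K₃ e x N - Ph T K₁ K₂ K₃ e' x N|} ≤
        μ ({x | ∃ N : ℕ, τ / 3 < (N : ℝ)⁻¹ * ∑ n ∈ Icc 1 N, B ^ 2 * |(e.1 : Lp ℝ 1 μ) (T^[1 * n] x) - (e'.1 : Lp ℝ 1 μ) (T^[1 * n] x)|} ∪
        {x | ∃ N : ℕ, τ / 3 < (N : ℝ)⁻¹ * ∑ n ∈ Icc 1 N, B ^ 2 * |(e.2.1 : Lp ℝ 1 μ) (T^[2 * n] x) - (e'.2.1 : Lp ℝ 1 μ) (T^[2 * n] x)|} ∪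
        {x | ∃ N : ℕ, τ / 3 < (N : ℝ)⁻¹ * ∑ n ∈ Icc 1 N, B ^ 2 * |(e.2.2 : Lp ℝ 1 μ) (T^[3 * n] x) - (e'.2.2 : Lp ℝ 1 μ) (T^[3 * n] x)|}) := by
        refine measure_mono_ae ?_
        filter_upwards [hae] with x hx
        rintro ⟨N, hN⟩
        have h1 := hx N
        by_contra hcon
        have c1' := not_lt.1 fun h => hcon (Or.inl (Or.inl ⟨N, h⟩))
        have c2' := not_lt.1 fun h => hcon (Or.inl (Or.inr ⟨N, h⟩))
        have c3' := not_lt.1 fun h => hcon (Or.inr ⟨N, h⟩)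
        linarith
    _ ≤ ENNReal.ofReal (η' / 3) + ENNReal.ofReal (η' / 3) + ENNReal.ofReal (η' / 3) :=
        (measure_union_le _ _).trans (add_le_add ((measure_union_le _ _).trans
          (add_le_add (key 1 _ _ d1) (key 2 _ _ d2))) (key 3 _ _ d3))
    _ = ENNReal.ofReal η' := by
        rw [← ENNReal.ofReal_add (by positivity) (by positivity),
          ← ENNReal.ofReal_add (by positivity) (by positivity)]
        congr 1
        ring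
    _ ≤ η := hη2

end Fun

end Pool.Agent.K1H28.ZG
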