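import Pool.Agent.K1H28.ZG.Part

/-!
# Replacing a mixture of two functions by a random cut and paste
-/

set_option autoImplicit false
set_option linter.unusedSectionVars false

open MeasureTheory Filter Topology Finset
open scoped ENNReal

namespace Pool.Agent.K1H28.ZG

open Pool.Agent.K1H28.ZO

variable {X : Type*} [MeasurableSpace X] {μ : Measure X} [IsProbabilityMeasure μ]

lemma exists_delta {F : X → ℕ → ℝ} (hF : ∀ N, Measurable fun x => F x N) {D : Set X}
    (hD : MeasurableSet D) (hdiv : ∀ᵐ x ∂μ, x ∈ D → ¬ Cv (F x)) {η : ℝ} (hη : 0 < η) :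
    ∃ δ : ℝ, 0 < δ ∧ μ.real (D ∩ {x | ¬ Osc (F x) δ}) ≤ η := by
  set S : ℕ → Set X := fun n => D ∩ {x | ¬ Osc (F x) (1 / ((n : ℝ) + 1))} with hS
  have hSm : ∀ n, NullMeasurableSet (S n) μ := fun n =>
    (hD.inter (osc_measurableSet hF _).compl).nullMeasurableSet
  have hanti : Antitone S := by
    intro a b hab x hx
    refine ⟨hx.1, fun ho => hx.2 (osc_mono ?_ ho)⟩
    apply one_div_le_one_div_of_le (by positivity)
    have : (a : ℝ) ≤ b := by exact_mod_cast hab
    linarith
  have h0 : μ (⋂ n, S n) = 0 := by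
    refine measure_mono_null ?_ (ae_iff.1 hdiv)
    intro x hx
    rw [Set.mem_iInter] at hx
    simp only [Set.mem_ofPred_eq]
    push Not
    refine ⟨(hx 0).1, ?_⟩
    by_contra hc
    obtain ⟨δ, hδ, ho⟩ := osc_of_not_cv hc
    obtain ⟨n, hn⟩ := exists_nat_one_div_lt hδ
    exact (hx n).2 (osc_mono hn.le ho)
  have ht := tendsto_measure_iInter_atTop hSm hanti ⟨0, measure_ne_top _ _⟩
  rw [h0] at ht
  obtain ⟨n, hn⟩ := (ht.eventually (gt_mem_nhds (ENNReal.ofReal_pos.2 hη))).exists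
  refine ⟨1 / ((n : ℝ) + 1), by positivity, ?_⟩
  rw [Measure.real]
  exact ENNReal.toReal_le_of_le_ofReal hη.le hn.le

theorem step {T : X → X} (hT : Ergodic T μ) (hs : Small μ) {j : ℕ} (hj : 1 ≤ j) (b : X → ℕ → ℝ)
    (hb : ∀ N, Measurable fun x => b x N) (H : ℕ → X → ℝ) (hH : ∀ n, Measurable (H n)) {C : ℝ}
    (hC : ∀ᵐ x ∂μ, ∀ n, |H n x| ≤ C) {s : ℝ} (s0 : 0 < s) (s1 : s ≤ 1) {D : Set X}
    (hD : MeasurableSet D)
    (hdiv : ∀ᵐ x ∂μ, x ∈ D → ¬ Cv (fun N => b x N + (N : ℝ)⁻¹ * ∑ n ∈ Icc 1 N, s * H n x))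
    {η : ℝ} (hη : 0 < η) :
    ∃ E : Set X, MeasurableSet E ∧ μ.real E ≤ 2 * s ∧
      μ.real (D ∩ {x | Cv (fun N => b x N + (N : ℝ)⁻¹ * ∑ n ∈ Icc 1 N,
        E.indicator 1 (T^[j * n] x) * H n x)}) ≤ η := by
  classical
  have hTm : Measurable T := hT.toMeasurePreserving.measurable
  have ham : ∀ N : ℕ, Measurable fun x => b x N + (N : ℝ)⁻¹ * ∑ n ∈ Icc 1 N, s * H n x := fun N =>
    (hb N).add ((Finset.measurable_fun_sum _ fun n _ => (hH n).const_mul s).const_mul _)
  obtain ⟨δ, hδ, hδm⟩ := exists_delta ham hD hdiv (half_pos hη)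
  have hCn : 0 ≤ C := by
    obtain ⟨x, hx⟩ := hC.exists
    exact (abs_nonneg _).trans (hx 0)
  have hj0 : (0 : ℝ) < j := by exact_mod_cast hj
  set κ : ℝ := min 1 (η * δ ^ 2 / (128 * (C + 1) ^ 2 * (j + 1) ^ 2)) with hκd
  have hκ : 0 < κ := lt_min one_pos (by positivity)
  have hκ1 : κ ≤ 1 := min_le_left _ _
  obtain ⟨K, ξ, hξ, hK, hξκ⟩ := exists_label hT hs hκ
  have hK0 : (0 : ℝ) < K := by exact_mod_cast hK
  have hK1 : (1 : ℝ) ≤ K := by exact_mod_cast hK
  set r : Fin K → ℝ := fun q => j * μ.real (ξ ⁻¹' {q}) + κ / K with hr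
  have hr0 : ∀ q, 0 ≤ r q := fun q => by simp only [hr]; positivity
  have hrle : ∀ q, r q ≤ (j + 1) * κ := by
    intro q
    have h1 := mul_le_mul_of_nonneg_left (hξκ q) hj0.le
    have h2 : κ / K ≤ κ := div_le_self hκ.le hK1
    simp only [hr]
    linarith
  have hsumQ : ∑ q, μ.real (ξ ⁻¹' {q}) = 1 := by
    have h1 : (⋃ q ∈ (Finset.univ : Finset (Fin K)), ξ ⁻¹' {q}) = Set.univ := by
      ext x
      simp
    have h2 := measureReal_biUnion_finset (μ := μ) (s := (Finset.univ : Finset (Fin K)))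
      (f := fun q => ξ ⁻¹' {q}) (fun a _ c _ hac => Set.disjoint_left.2 fun x hx hx' => hac (by
        rw [← (show ξ x = a from hx), ← (show ξ x = c from hx')]))
      (fun q _ => hξ (measurableSet_singleton _))
    rw [h1, probReal_univ] at h2
    exact h2.symm
  have hrsum : ∑ q, r q ≤ j + 1 := by
    simp only [hr]
    rw [Finset.sum_add_distrib, ← Finset.mul_sum, hsumQ]
    simp only [Finset.sum_const, Finset.card_univ, Fintype.card_fin, nsmul_eq_mul]
    rw [mul_div_cancel₀ _ hK0.ne']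
    linarith
  have hrsq : ∑ q, r q ^ 2 ≤ (j + 1) ^ 2 * κ := by
    calc ∑ q, r q ^ 2 ≤ ∑ q, (j + 1) * κ * r q := by
          refine Finset.sum_le_sum fun q _ => ?_
          rw [sq]
          exact mul_le_mul_of_nonneg_right (hrle q) (hr0 q)
      _ = (j + 1) * κ * ∑ q, r q := by rw [Finset.mul_sum]
      _ ≤ (j + 1) * κ * (j + 1) := mul_le_mul_of_nonneg_left hrsum (by positivity)
      _ = _ := by ring
  set β : ℝ := 16 * C ^ 2 * ((j + 1) ^ 2 * κ) / δ ^ 2 with hβ
  have hβ0 : 0 ≤ β := by positivity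
  have hβle : β ≤ η / 8 := by
    have h1 : κ ≤ η * δ ^ 2 / (128 * (C + 1) ^ 2 * (j + 1) ^ 2) := min_le_right _ _
    rw [le_div_iff₀ (by positivity)] at h1
    rw [hβ, div_le_iff₀ (by positivity)]
    have h2 : C ^ 2 ≤ (C + 1) ^ 2 := by nlinarith
    have h3 : C ^ 2 * ((j + 1) ^ 2 * κ) ≤ (C + 1) ^ 2 * ((j + 1) ^ 2 * κ) :=
      mul_le_mul_of_nonneg_right h2 (by positivity)
    nlinarith
  -- the random mixtures
  set S : (Fin K → Bool) → X → ℕ → ℝ := fun t x =>
    mix (b x) (fun n => H n x) (fun n => ξ (T^[j * n] x)) (fun q => ib (t q)) with hS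
  have hSm : ∀ t N, Measurable fun x => S t x N := by
    intro t N
    simp only [hS]
    unfold mix
    refine (hb N).add ((Finset.measurable_fun_sum _ fun n _ => ?_).const_mul _)
    exact ((measurable_of_finite (fun q : Fin K => ib (t q))).comp
      (hξ.comp (hTm.iterate _))).mul (hH n)
  set A : Set X := D ∩ {x | Osc (fun N => b x N + (N : ℝ)⁻¹ * ∑ n ∈ Icc 1 N, s * H n x) δ} with hA
  have hAm : MeasurableSet A := hD.inter (osc_measurableSet ham δ)
  set G : (Fin K → Bool) → Set X := fun t => A ∩ {x | ¬ Osc (S t x) (δ / 2)} with hG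
  have hGm : ∀ t, MeasurableSet (G t) := fun t => hAm.inter (osc_measurableSet (hSm t) _).compl
  have hfr : ∀ᵐ x ∂μ, ∀ q, ∀ᶠ N : ℕ in atTop, frq (fun n => ξ (T^[j * n] x)) N q ≤ r q := by
    rw [ae_all_iff]
    intro q
    exact freq_upper hT hξ q hj (div_pos hκ hK0)
  have hpt : ∀ᵐ x ∂μ, ∑ t, wt s t * (G t).indicator 1 x ≤ β := by
    filter_upwards [hC, hfr] with x hx1 hx2
    by_cases hxA : x ∈ A
    · have h1 := most s0.le s1 (b x) (fun n => H n x) (fun n => ξ (T^[j * n] x)) hx1 hr0 hrsq hx2 hδ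
        hxA.2
      refine le_trans (le_of_eq ?_) h1
      refine Finset.sum_congr rfl fun t _ => ?_
      by_cases h2 : Osc (S t x) (δ / 2)
      · have h3 : x ∉ G t := fun h => h.2 h2
        rw [Set.indicator_of_notMem h3, mul_zero, if_neg (not_not.2 h2)]
      · have h3 : x ∈ G t := ⟨hxA, h2⟩
        rw [Set.indicator_of_mem h3, Pi.one_apply, mul_one, if_pos h2]
    · refine le_trans (le_of_eq ?_) hβ0
      refine Finset.sum_eq_zero fun t _ => ?_
      rw [Set.indicator_of_notMem fun h => hxA h.1, mul_zero]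
  have hsum1 : ∑ t, wt s t * μ.real (G t) ≤ β := by
    have h1 : ∑ t, wt s t * μ.real (G t) = ∫ x, ∑ t, wt s t * (G t).indicator 1 x ∂μ := by
      rw [integral_finsetSum]
      · refine Finset.sum_congr rfl fun t _ => ?_
        rw [integral_const_mul, integral_indicator_one (hGm t)]
      · intro t _
        exact ((integrable_const (1 : ℝ)).indicator (hGm t)).const_mul _
    rw [h1]
    calc ∫ x, ∑ t, wt s t * (G t).indicator 1 x ∂μ ≤ ∫ _, β ∂μ := by
          refine integral_mono_ae ?_ (integrable_const _) hpt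
          exact integrable_finsetSum _ fun t _ =>
            ((integrable_const (1 : ℝ)).indicator (hGm t)).const_mul _
      _ = β := by simp
  set E : (Fin K → Bool) → Set X := fun t => {x | t (ξ x) = true} with hE
  have hEm : ∀ t, MeasurableSet (E t) := fun t => by
    have : E t = ξ ⁻¹' {q | t q = true} := rfl
    rw [this]
    exact hξ (Set.toFinite _).measurableSet
  have hEr : ∀ t, μ.real (E t) = ∑ q, ib (t q) * μ.real (ξ ⁻¹' {q}) := by
    intro t
    have h1 : E t = ⋃ q ∈ (Finset.univ.filter fun q => t q = true : Finset (Fin K)), ξ ⁻¹' {q} := by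
      ext x
      simp [hE]
    rw [h1, measureReal_biUnion_finset]
    · rw [Finset.sum_filter]
      refine Finset.sum_congr rfl fun q _ => ?_
      unfold ib
      split_ifs <;> simp
    · intro a _ c _ hac
      exact Set.disjoint_left.2 fun x hx hx' => hac (by
        rw [← (show ξ x = a from hx), ← (show ξ x = c from hx')])
    · intro q _
      exact hξ (measurableSet_singleton _)
  have hsum2 : ∑ t, wt s t * μ.real (E t) = s := by
    have h1 : ∀ t : Fin K → Bool, wt s t * μ.real (E t) =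
        ∑ q, μ.real (ξ ⁻¹' {q}) * (wt s t * ib (t q)) := by
      intro t
      rw [hEr, Finset.mul_sum]
      refine Finset.sum_congr rfl fun q _ => ?_
      ring
    simp only [h1]
    rw [Finset.sum_comm]
    have h2 : ∀ q : Fin K, ∑ t : Fin K → Bool, μ.real (ξ ⁻¹' {q}) * (wt s t * ib (t q)) =
        μ.real (ξ ⁻¹' {q}) * s := by
      intro q
      rw [← Finset.mul_sum, sum_wt_one s q ib, Fintype.sum_bool]
      simp [w1, ib]
    simp only [h2]
    rw [← Finset.sum_mul, hsumQ, one_mul]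
  -- a good choice
  obtain ⟨t, ht1, ht2⟩ : ∃ t, μ.real (E t) ≤ 2 * s ∧ μ.real (G t) ≤ η / 2 := by
    by_contra hcon
    push Not at hcon
    have h1 : ∀ t : Fin K → Bool, wt s t * 1 ≤
        wt s t * (μ.real (E t) / (2 * s) + μ.real (G t) / (η / 2)) := by
      intro t
      refine mul_le_mul_of_nonneg_left ?_ (wt_nonneg s0.le s1 t)
      have e1 : 0 ≤ μ.real (E t) / (2 * s) := by positivity
      have e2 : 0 ≤ μ.real (G t) / (η / 2) := by positivity
      by_cases h : μ.real (E t) ≤ 2 * s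
      · have h2 : 1 ≤ μ.real (G t) / (η / 2) := by
          rw [le_div_iff₀ (by positivity), one_mul]
          exact (hcon t h).le
        linarith
      · have h2 : 1 ≤ μ.real (E t) / (2 * s) := by
          rw [le_div_iff₀ (by positivity), one_mul]
          exact (not_le.1 h).le
        linarith
    have h2 := Finset.sum_le_sum fun t (_ : t ∈ (Finset.univ : Finset (Fin K → Bool))) => h1 t
    simp only [mul_one] at h2
    rw [sum_wt] at h2
    have h3 : ∑ t, wt s t * (μ.real (E t) / (2 * s) + μ.real (G t) / (η / 2)) =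
        (∑ t, wt s t * μ.real (E t)) / (2 * s) + (∑ t, wt s t * μ.real (G t)) / (η / 2) := by
      rw [Finset.sum_div, Finset.sum_div, ← Finset.sum_add_distrib]
      refine Finset.sum_congr rfl fun t _ => ?_
      ring
    rw [h3, hsum2] at h2
    have h4 : s / (2 * s) = 1 / 2 := by field_simp
    have h5 : (∑ t, wt s t * μ.real (G t)) / (η / 2) ≤ 1 / 4 := by
      rw [div_le_iff₀ (by positivity)]
      linarith
    linarith
  refine ⟨E t, hEm t, ht1, ?_⟩
  have hsub : D ∩ {x | Cv (fun N => b x N + (N : ℝ)⁻¹ * ∑ n ∈ Icc 1 N,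
      (E t).indicator 1 (T^[j * n] x) * H n x)} ⊆
      (D ∩ {x | ¬ Osc (fun N => b x N + (N : ℝ)⁻¹ * ∑ n ∈ Icc 1 N, s * H n x) δ}) ∪ G t := by
    rintro x ⟨hxD, hxC⟩
    by_cases h : Osc (fun N => b x N + (N : ℝ)⁻¹ * ∑ n ∈ Icc 1 N, s * H n x) δ
    · right
      refine ⟨⟨hxD, h⟩, fun ho => not_cv_of_osc (half_pos hδ) ho ?_⟩
      have e : S t x = fun N => b x N + (N : ℝ)⁻¹ * ∑ n ∈ Icc 1 N,
          (E t).indicator 1 (T^[j * n] x) * H n x := by
        funext N
        simp only [hS, mix, hE, ib, Set.indicator_apply, Set.mem_ofPred_eq, Pi.one_apply]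
      rw [e]
      exact hxC
    · left
      exact ⟨hxD, h⟩
  refine (measureReal_mono hsub (measure_ne_top _ _)).trans ((measureReal_union_le _ _).trans ?_)
  linarith

end Pool.Agent.K1H28.ZG
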