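import Pool.Agent.K1H28.ZO.Basic

/-!
# Random subsets of a finite set, and random mixtures of sequences of averages
-/

set_option autoImplicit false

open Filter Topology Finset

namespace Pool.Agent.K1H28.ZG

open Pool.Agent.K1H28.ZO

variable {K : ℕ}

/-- the weight of one symbol -/
def w1 (s : ℝ) (b : Bool) : ℝ := if b then s else 1 - s

/-- the weight of a subset when the points are chosen independently with probability `s` -/
def wt (s : ℝ) (t : Fin K → Bool) : ℝ := ∏ q, w1 s (t q)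

/-- the indicator -/
def ib (b : Bool) : ℝ := if b then 1 else 0

lemma w1_nonneg {s : ℝ} (h0 : 0 ≤ s) (h1 : s ≤ 1) (b : Bool) : 0 ≤ w1 s b := by
  unfold w1
  split_ifs <;> linarith

lemma wt_nonneg {s : ℝ} (h0 : 0 ≤ s) (h1 : s ≤ 1) (t : Fin K → Bool) : 0 ≤ wt s t :=
  Finset.prod_nonneg fun _ _ => w1_nonneg h0 h1 _

lemma sum_w1 (s : ℝ) : ∑ b : Bool, w1 s b = 1 := by
  rw [Fintype.sum_bool]
  simp [w1]

lemma sum_prod (g : Fin K → Bool → ℝ) : ∑ t : Fin K → Bool, ∏ q, g q (t q) = ∏ q, ∑ b, g q b := by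
  rw [Finset.prod_univ_sum, Fintype.piFinset_univ]

lemma sum_wt (s : ℝ) : ∑ t : Fin K → Bool, wt s t = 1 := by
  unfold wt
  rw [sum_prod (fun _ b => w1 s b)]
  exact Finset.prod_eq_one fun _ _ => sum_w1 s

lemma sum_wt_one (s : ℝ) (q : Fin K) (φ : Bool → ℝ) :
    ∑ t : Fin K → Bool, wt s t * φ (t q) = ∑ b, w1 s b * φ b := by
  have e : ∀ t : Fin K → Bool, wt s t * φ (t q) = ∏ i, w1 s (t i) * (if i = q then φ (t i) else 1) := by
    intro t
    rw [Finset.prod_mul_distrib]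
    unfold wt
    congr 1
    rw [Finset.prod_ite_eq' Finset.univ q (fun i => φ (t i))]
    simp
  simp only [e]
  rw [sum_prod (fun i b => w1 s b * (if i = q then φ b else 1))]
  rw [Finset.prod_eq_single q]
  · simp
  · intro i _ hi
    simp only [hi, if_false, mul_one]
    exact sum_w1 s
  · intro h
    exact absurd (Finset.mem_univ q) h

lemma sum_wt_two (s : ℝ) {q q' : Fin K} (hq : q ≠ q') :
    ∑ t : Fin K → Bool, wt s t * ((ib (t q) - s) * (ib (t q') - s)) = 0 := by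
  have e : ∀ t : Fin K → Bool, wt s t * ((ib (t q) - s) * (ib (t q') - s)) =
      ∏ i, w1 s (t i) * ((if i = q then ib (t i) - s else 1) * (if i = q' then ib (t i) - s else 1)) := by
    intro t
    rw [Finset.prod_mul_distrib, Finset.prod_mul_distrib]
    unfold wt
    congr 1
    rw [Finset.prod_ite_eq' Finset.univ q (fun i => ib (t i) - s),
      Finset.prod_ite_eq' Finset.univ q' (fun i => ib (t i) - s)]
    simp
  simp only [e]
  rw [sum_prod (fun i b => w1 s b * ((if i = q then ib b - s else 1) * (if i = q' then ib b - s else 1)))]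
  refine Finset.prod_eq_zero (Finset.mem_univ q) ?_
  simp only [if_true, if_neg hq, mul_one]
  rw [Fintype.sum_bool]
  simp [w1, ib]
  ring

lemma sum_wt_sq {s : ℝ} (h0 : 0 ≤ s) (h1 : s ≤ 1) (q : Fin K) :
    ∑ t : Fin K → Bool, wt s t * ((ib (t q) - s) * (ib (t q) - s)) ≤ 1 := by
  rw [sum_wt_one s q (fun b => (ib b - s) * (ib b - s)), Fintype.sum_bool]
  simp [w1, ib]
  nlinarith

/-- the second moment of a sum -/
lemma second {s : ℝ} (h0 : 0 ≤ s) (h1 : s ≤ 1) (a : Fin K → ℝ) :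
    ∑ t : Fin K → Bool, wt s t * (∑ q, (ib (t q) - s) * a q) ^ 2 ≤ ∑ q, a q ^ 2 := by
  have e : ∀ t : Fin K → Bool, wt s t * (∑ q, (ib (t q) - s) * a q) ^ 2 =
      ∑ q, ∑ q', a q * a q' * (wt s t * ((ib (t q) - s) * (ib (t q') - s))) := by
    intro t
    rw [sq, Finset.sum_mul_sum, Finset.mul_sum]
    refine Finset.sum_congr rfl fun q _ => ?_
    rw [Finset.mul_sum]
    refine Finset.sum_congr rfl fun q' _ => ?_
    ring
  simp only [e]
  rw [Finset.sum_comm]
  refine Finset.sum_le_sum fun q _ => ?_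
  rw [Finset.sum_comm]
  rw [Finset.sum_eq_single q]
  · rw [← Finset.mul_sum]
    have h2 := sum_wt_sq (K := K) h0 h1 q
    have h3 : 0 ≤ a q * a q := mul_self_nonneg _
    nlinarith
  · intro q' _ hq'
    rw [← Finset.mul_sum, sum_wt_two s (Ne.symm hq'), mul_zero]
  · intro h
    exact absurd (Finset.mem_univ q) h

/-- Chebyshev -/
lemma cheb {s : ℝ} (h0 : 0 ≤ s) (h1 : s ≤ 1) (a : Fin K → ℝ) {δ : ℝ} (hδ : 0 < δ)
    (B : Finset (Fin K → Bool)) (hB : ∀ t ∈ B, δ ≤ |∑ q, (ib (t q) - s) * a q|) :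
    ∑ t ∈ B, wt s t ≤ (∑ q, a q ^ 2) / δ ^ 2 := by
  rw [le_div_iff₀ (by positivity), Finset.sum_mul]
  refine le_trans ?_ (second h0 h1 a)
  calc ∑ t ∈ B, wt s t * δ ^ 2 ≤ ∑ t ∈ B, wt s t * (∑ q, (ib (t q) - s) * a q) ^ 2 := by
        refine Finset.sum_le_sum fun t ht => mul_le_mul_of_nonneg_left ?_ (wt_nonneg h0 h1 t)
        rw [← sq_abs (∑ q, (ib (t q) - s) * a q)]
        exact pow_le_pow_left₀ hδ.le (hB t ht) 2
    _ ≤ _ := Finset.sum_le_sum_of_subset_of_nonneg (Finset.subset_univ _) fun t _ _ =>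
        mul_nonneg (wt_nonneg h0 h1 t) (sq_nonneg _)

/-- the mixture of two sequences of averages: `lab n` is the label of the time `n` and `θ` gives the
weights of the labels -/
noncomputable def mix (b : ℕ → ℝ) (H : ℕ → ℝ) (lab : ℕ → Fin K) (θ : Fin K → ℝ) (N : ℕ) : ℝ :=
  b N + (N : ℝ)⁻¹ * ∑ n ∈ Icc 1 N, θ (lab n) * H n

/-- the contribution of one label -/
noncomputable def ctr (H : ℕ → ℝ) (lab : ℕ → Fin K) (N : ℕ) (q : Fin K) : ℝ :=
  (N : ℝ)⁻¹ * ∑ n ∈ Icc 1 N, (if lab n = q then H n else 0)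

/-- the frequency of one label -/
noncomputable def frq (lab : ℕ → Fin K) (N : ℕ) (q : Fin K) : ℝ :=
  (N : ℝ)⁻¹ * ∑ n ∈ Icc 1 N, (if lab n = q then 1 else 0)

lemma mix_sub (b : ℕ → ℝ) (H : ℕ → ℝ) (lab : ℕ → Fin K) (θ θ' : Fin K → ℝ) (N : ℕ) :
    mix b H lab θ N - mix b H lab θ' N = ∑ q, (θ q - θ' q) * ctr H lab N q := by
  unfold mix ctr
  have e : ∀ q, (θ q - θ' q) * ((N : ℝ)⁻¹ * ∑ n ∈ Icc 1 N, (if lab n = q then H n else 0)) =
      (N : ℝ)⁻¹ * ∑ n ∈ Icc 1 N, (if lab n = q then (θ q - θ' q) * H n else 0) := by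
    intro q
    rw [mul_left_comm, Finset.mul_sum]
    congr 1
    refine Finset.sum_congr rfl fun n _ => ?_
    split_ifs <;> ring
  simp only [e]
  rw [← Finset.mul_sum, Finset.sum_comm]
  have e2 : ∀ n, ∑ q, (if lab n = q then (θ q - θ' q) * H n else 0) =
      θ (lab n) * H n - θ' (lab n) * H n := by
    intro n
    rw [Finset.sum_ite_eq]
    simp
    ring
  simp only [e2]
  rw [Finset.sum_sub_distrib]
  ring

lemma ctr_le {H : ℕ → ℝ} {C : ℝ} (hC : ∀ n, |H n| ≤ C) (lab : ℕ → Fin K) (N : ℕ) (q : Fin K) :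
    |ctr H lab N q| ≤ C * frq lab N q := by
  unfold ctr frq
  rw [abs_mul, abs_inv, Nat.abs_cast, mul_left_comm]
  refine mul_le_mul_of_nonneg_left ?_ (by positivity)
  refine (Finset.abs_sum_le_sum_abs _ _).trans ?_
  rw [Finset.mul_sum]
  refine Finset.sum_le_sum fun n _ => ?_
  split_ifs
  · simpa using hC n
  · simp

/-- For a fixed point: most random mixtures oscillate if the deterministic mixture oscillates. -/
theorem most {s : ℝ} (h0 : 0 ≤ s) (h1 : s ≤ 1) (b H : ℕ → ℝ) (lab : ℕ → Fin K) {C : ℝ}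
    (hC : ∀ n, |H n| ≤ C) {r : Fin K → ℝ} {R : ℝ} (hr0 : ∀ q, 0 ≤ r q) (hr : ∑ q, r q ^ 2 ≤ R)
    (hf : ∀ q, ∀ᶠ N : ℕ in atTop, frq lab N q ≤ r q) {δ : ℝ} (hδ : 0 < δ)
    (ho : Osc (mix b H lab fun _ => s) δ) [DecidablePred fun t : Fin K → Bool =>
      ¬ Osc (mix b H lab fun q => ib (t q)) (δ / 2)] :
    ∑ t : Fin K → Bool, (if ¬ Osc (mix b H lab fun q => ib (t q)) (δ / 2) then wt s t else 0) ≤
      16 * C ^ 2 * R / δ ^ 2 := by
  classical
  have hC0 : 0 ≤ C := (abs_nonneg _).trans (hC 0)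
  -- a common threshold
  have h2 : ∀ t : Fin K → Bool, ∀ᶠ N : ℕ in atTop, ¬ Osc (mix b H lab fun q => ib (t q)) (δ / 2) →
      ∀ p q : ℕ, N ≤ p → N ≤ q →
        |mix b H lab (fun q => ib (t q)) p - mix b H lab (fun q => ib (t q)) q| ≤ δ / 2 := by
    intro t
    by_cases h : Osc (mix b H lab fun q => ib (t q)) (δ / 2)
    · exact Eventually.of_forall fun N hN => absurd h hN
    · unfold Osc at h
      push Not at h
      obtain ⟨N, hN⟩ := h
      filter_upwards [eventually_ge_atTop N] with M hM _ p q hp hq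
      exact hN p q (hM.trans hp) (hM.trans hq)
  have h3 := (eventually_all (l := atTop)).2 h2
  have h4 : ∀ᶠ N : ℕ in atTop, ∀ q, ∀ M, N ≤ M → frq lab M q ≤ r q := by
    rw [eventually_all]
    intro q
    obtain ⟨N, hN⟩ := eventually_atTop.1 (hf q)
    filter_upwards [eventually_ge_atTop N] with L hL M hM
    exact hN M (hL.trans hM)
  obtain ⟨N, hN3, hN4⟩ := (h3.and h4).exists
  obtain ⟨p, q, hp, hq, hpq⟩ := ho N
  set a : Fin K → ℝ := fun i => ctr H lab p i - ctr H lab q i with ha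
  have hale : ∀ i, |a i| ≤ 2 * C * r i := by
    intro i
    have u1 := ctr_le hC lab p i
    have u2 := ctr_le hC lab q i
    have u3 := mul_le_mul_of_nonneg_left (hN4 i p hp) hC0
    have u4 := mul_le_mul_of_nonneg_left (hN4 i q hq) hC0
    have u5 := abs_sub (ctr H lab p i) (ctr H lab q i)
    simp only [ha]
    linarith
  have hsq : ∑ i, a i ^ 2 ≤ 4 * C ^ 2 * R := by
    calc ∑ i, a i ^ 2 ≤ ∑ i, 4 * C ^ 2 * r i ^ 2 := by
          refine Finset.sum_le_sum fun i _ => ?_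
          rw [← sq_abs (a i)]
          refine (pow_le_pow_left₀ (abs_nonneg _) (hale i) 2).trans (le_of_eq ?_)
          ring
      _ = 4 * C ^ 2 * ∑ i, r i ^ 2 := by rw [Finset.mul_sum]
      _ ≤ _ := mul_le_mul_of_nonneg_left hr (by positivity)
  have key := cheb h0 h1 a (half_pos hδ)
    (Finset.univ.filter fun t : Fin K → Bool => ¬ Osc (mix b H lab fun q => ib (t q)) (δ / 2)) ?_
  · rw [← Finset.sum_filter]
    refine key.trans ?_
    rw [div_le_div_iff₀ (by positivity) (by positivity)]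
    nlinarith [sq_nonneg δ]
  · intro t ht
    rw [Finset.mem_filter] at ht
    have h5 := hN3 t ht.2 p q hp hq
    have e1 := mix_sub b H lab (fun i => ib (t i)) (fun _ => s) p
    have e2 := mix_sub b H lab (fun i => ib (t i)) (fun _ => s) q
    have e3 : ∑ i, (ib (t i) - s) * a i =
        (mix b H lab (fun i => ib (t i)) p - mix b H lab (fun i => ib (t i)) q) -
        (mix b H lab (fun _ => s) p - mix b H lab (fun _ => s) q) := by
      have : ∑ i, (ib (t i) - s) * a i = ∑ i, (ib (t i) - s) * ctr H lab p i -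
          ∑ i, (ib (t i) - s) * ctr H lab q i := by
        rw [← Finset.sum_sub_distrib]
        refine Finset.sum_congr rfl fun i _ => ?_
        simp only [ha]
        ring
      rw [this, ← e1, ← e2]
      ring
    rw [e3]
    have h6 := abs_sub_abs_le_abs_sub (mix b H lab (fun _ => s) p - mix b H lab (fun _ => s) q)
      (mix b H lab (fun i => ib (t i)) p - mix b H lab (fun i => ib (t i)) q)
    rw [abs_sub_comm (mix b H lab (fun _ => s) p - mix b H lab (fun _ => s) q)] at h6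
    linarith

end Pool.Agent.K1H28.ZG
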